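import Mathlib

/-!
# Averages over finite types
-/

set_option autoImplicit false

namespace Pool.Agent.BHD

open Finset

section avg

variable {Ω Ω' : Type} [Fintype Ω] [Fintype Ω']

/-- Average over a finite type. -/
noncomputable def avg (f : Ω → ℝ) : ℝ := (∑ x, f x) / (Fintype.card Ω : ℝ)

open Classical in
/-- Indicator of a proposition. -/
noncomputable def ind (p : Prop) : ℝ := if p then 1 else 0

theorem ind_nonneg (p : Prop) : 0 ≤ ind p := by
  rw [ind]; split_ifs <;> norm_num

theorem ind_le_one (p : Prop) : ind p ≤ 1 := by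
  rw [ind]; split_ifs <;> norm_num

theorem ind_true {p : Prop} (h : p) : ind p = 1 := if_pos h

theorem ind_false {p : Prop} (h : ¬ p) : ind p = 0 := if_neg h

theorem ind_mono {p q : Prop} (h : p → q) : ind p ≤ ind q := by
  by_cases hp : p
  · rw [ind_true hp, ind_true (h hp)]
  · rw [ind_false hp]; exact ind_nonneg q

theorem ind_congr {p q : Prop} (h : p ↔ q) : ind p = ind q :=
  le_antisymm (ind_mono h.1) (ind_mono h.2)

theorem ind_and (p q : Prop) : ind (p ∧ q) = ind p * ind q := by
  by_cases hp : p <;> by_cases hq : q <;> simp [ind, hp, hq]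

theorem ind_forall {ι : Type} [Fintype ι] (p : ι → Prop) : ind (∀ i, p i) = ∏ i, ind (p i) := by
  classical
  by_cases h : ∀ i, p i
  · rw [ind_true h]
    symm
    exact Finset.prod_eq_one fun i _ => ind_true (h i)
  · rw [ind_false h]
    push Not at h
    obtain ⟨i, hi⟩ := h
    symm
    exact Finset.prod_eq_zero (Finset.mem_univ i) (ind_false hi)

theorem avg_mono {f g : Ω → ℝ} (h : ∀ x, f x ≤ g x) : avg f ≤ avg g := by
  rw [avg, avg]
  gcongr with x
  exact h x

theorem avg_nonneg {f : Ω → ℝ} (h : ∀ x, 0 ≤ f x) : 0 ≤ avg f := by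
  rw [avg]
  exact div_nonneg (Finset.sum_nonneg fun x _ => h x) (Nat.cast_nonneg _)

theorem avg_const [Nonempty Ω] (c : ℝ) : avg (fun _ : Ω => c) = c := by
  rw [avg, Finset.sum_const, Finset.card_univ, nsmul_eq_mul]
  have : (Fintype.card Ω : ℝ) ≠ 0 := by
    exact_mod_cast Fintype.card_ne_zero
  field_simp

theorem avg_le_one [Nonempty Ω] {f : Ω → ℝ} (h : ∀ x, f x ≤ 1) : avg f ≤ 1 := by
  calc avg f ≤ avg (fun _ : Ω => (1 : ℝ)) := avg_mono h
    _ = 1 := avg_const 1

theorem avg_mul_left (c : ℝ) (f : Ω → ℝ) : avg (fun x => c * f x) = c * avg f := by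
  rw [avg, avg, ← Finset.mul_sum, mul_div_assoc]

theorem avg_sum {ι : Type} (s : Finset ι) (f : ι → Ω → ℝ) :
    avg (fun x => ∑ i ∈ s, f i x) = ∑ i ∈ s, avg (f i) := by
  simp only [avg]
  rw [Finset.sum_comm, Finset.sum_div]

theorem avg_prod (f : Ω → Ω' → ℝ) :
    avg (fun z : Ω × Ω' => f z.1 z.2) = avg fun x => avg fun y => f x y := by
  simp only [avg]
  rw [Fintype.sum_prod_type, Fintype.card_prod, Nat.cast_mul, ← Finset.sum_div, div_div, mul_comm]

theorem avg_comm (f : Ω → Ω' → ℝ) :
    (avg fun x => avg fun y => f x y) = avg fun y => avg fun x => f x y := by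
  simp only [avg]
  rw [← Finset.sum_div, ← Finset.sum_div, Finset.sum_comm, div_div, div_div, mul_comm]

theorem avg_equiv (e : Ω ≃ Ω') (f : Ω' → ℝ) : avg (fun x => f (e x)) = avg f := by
  rw [avg, avg, Equiv.sum_comp e f, Fintype.card_congr e]

theorem avg_sq (f : Ω → ℝ) : (avg f) ^ 2 ≤ avg (fun x => f x ^ 2) := by
  rcases isEmpty_or_nonempty Ω with h | h
  · simp [avg]
  · have hc : (0 : ℝ) < Fintype.card Ω := by exact_mod_cast Fintype.card_pos
    rw [avg, avg, div_pow, sq (Fintype.card Ω : ℝ), div_le_div_iff₀ (by positivity) hc]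
    have h1 := sq_sum_le_card_mul_sum_sq (s := (Finset.univ : Finset Ω)) (f := f)
    rw [Finset.card_univ] at h1
    nlinarith [h1, mul_le_mul_of_nonneg_right h1 hc.le]

theorem avg_pi {ι : Type} [Fintype ι] [DecidableEq ι] (f : ι → Ω → ℝ) :
    avg (fun q : ι → Ω => ∏ i, f i (q i)) = ∏ i, avg (f i) := by
  simp only [avg]
  rw [Finset.prod_div_distrib, Finset.prod_univ_sum, Fintype.piFinset_univ, Fintype.card_pi]
  simp

theorem avg_eval {ι : Type} [Fintype ι] [DecidableEq ι] [Nonempty Ω] (i : ι) (f : Ω → ℝ) :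
    avg (fun q : ι → Ω => f (q i)) = avg f := by
  have h1 := avg_pi (fun j : ι => if j = i then f else fun _ : Ω => (1 : ℝ))
  have h2 : ∀ q : ι → Ω, (∏ j, (if j = i then f else fun _ : Ω => (1 : ℝ)) (q j)) = f (q i) := by
    intro q
    rw [Finset.prod_eq_single i]
    · simp
    · intro j _ hj
      simp [hj]
    · intro h
      exact absurd (Finset.mem_univ i) h
  simp only [h2] at h1
  rw [h1, Finset.prod_eq_single i]
  · simp
  · intro j _ hj
    rw [if_neg hj, avg_const]
  · intro h
    exact absurd (Finset.mem_univ i) h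

end avg

section mix

variable {γ T : Type} [Fintype γ] [DecidableEq γ] [Fintype T]

/-- The function that is `y` on `S` and `z` elsewhere. -/
def mix (S : Finset γ) (y z : γ → T) : γ → T := fun g => if g ∈ S then y g else z g

omit [Fintype γ] [Fintype T] in
theorem mix_mem {S : Finset γ} {y z : γ → T} {g : γ} (h : g ∈ S) : mix S y z g = y g := if_pos h

omit [Fintype γ] [Fintype T] in
theorem mix_notMem {S : Finset γ} {y z : γ → T} {g : γ} (h : g ∉ S) : mix S y z g = z g := if_neg h

/-- The pair of exchanged functions. -/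
def mixEquiv (S : Finset γ) : ((γ → T) × (γ → T)) ≃ ((γ → T) × (γ → T)) where
  toFun p := (mix S p.1 p.2, mix S p.2 p.1)
  invFun p := (mix S p.1 p.2, mix S p.2 p.1)
  left_inv := by
    rintro ⟨y, z⟩
    ext g <;> by_cases h : g ∈ S <;> simp [mix, h]
  right_inv := by
    rintro ⟨y, z⟩
    ext g <;> by_cases h : g ∈ S <;> simp [mix, h]

theorem avg_mix [Nonempty T] (S : Finset γ) (f : (γ → T) → ℝ) :
    (avg fun y => avg fun z => f (mix S y z)) = avg f := by
  rw [← avg_prod (fun y z : γ → T => f (mix S y z))]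
  have h1 := avg_equiv (mixEquiv (T := T) S) (fun p : (γ → T) × (γ → T) => f p.1)
  have h2 : (avg fun z : (γ → T) × (γ → T) => f (mix S z.1 z.2)) =
      avg (fun p : (γ → T) × (γ → T) => f p.1) := h1
  rw [h2, avg_prod (fun y _ : γ → T => f y)]
  congr 1
  ext y
  rw [avg_const]

theorem avg_update [Nonempty T] (b : γ) (f : (γ → T) → ℝ) :
    (avg fun p : γ → T => avg fun t : T => f (Function.update p b t)) = avg f := by
  have h1 : ∀ p z : γ → T, mix {b}ᶜ p z = Function.update p b (z b) := by
    intro p z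
    ext g
    by_cases h : g = b
    · subst h; simp [mix]
    · simp [mix, h]
  rw [← avg_mix ({b}ᶜ : Finset γ) f]
  congr 1
  ext p
  have h2 := avg_eval (Ω := T) b (fun t => f (Function.update p b t))
  rw [← h2]
  congr 1
  ext z
  rw [h1]

/-- Functions depending on disjoint sets of coordinates are independent. -/
theorem avg_mul_indep [Nonempty T] (S : Finset γ) (f g : (γ → T) → ℝ)
    (hf : ∀ p p' : γ → T, (∀ a ∈ S, p a = p' a) → f p = f p')
    (hg : ∀ p p' : γ → T, (∀ a ∉ S, p a = p' a) → g p = g p') :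
    avg (fun p => f p * g p) = avg f * avg g := by
  rw [← avg_mix S (fun p => f p * g p)]
  have h1 : ∀ y z : γ → T, f (mix S y z) * g (mix S y z) = f y * g z := by
    intro y z
    rw [hf (mix S y z) y (fun a ha => mix_mem ha), hg (mix S y z) z (fun a ha => mix_notMem ha)]
  simp only [h1, avg_mul_left]
  rw [mul_comm (avg f), ← avg_mul_left]
  congr 1
  ext y
  ring

theorem avg_prod_indep [Nonempty T] {ι : Type} [DecidableEq ι] (J : Finset ι)
    (P : ι → Finset γ) (f : ι → (γ → T) → ℝ)
    (hf : ∀ j, ∀ p p' : γ → T, (∀ a ∈ P j, p a = p' a) → f j p = f j p')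
    (hd : ∀ j j', j ≠ j' → Disjoint (P j) (P j')) :
    avg (fun p => ∏ j ∈ J, f j p) = ∏ j ∈ J, avg (f j) := by
  induction J using Finset.induction_on with
  | empty =>
    simp only [Finset.prod_empty]
    exact avg_const 1
  | insert j J hj ih =>
    rw [Finset.prod_insert hj, ← ih, ← avg_mul_indep (P j) (f j) (fun p => ∏ j ∈ J, f j p) (hf j)]
    · congr 1
      ext p
      rw [Finset.prod_insert hj]
    · intro p p' h
      refine Finset.prod_congr rfl fun i hi => ?_
      refine hf i p p' fun a ha => h a ?_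
      have hij : j ≠ i := by
        rintro rfl
        exact hj hi
      exact fun ha' => (Finset.disjoint_left.1 (hd j i hij)) ha' ha

end mix

end Pool.Agent.BHD
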