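import Pool.Agent.BHD.Struct

/-!
# The finite basis theorem

For every graph `A` there is a bound `N` such that every graph `H` dominated by `A` has a subgraph
with at most `N` vertices that is dominated by `A`.
-/

set_option autoImplicit false

namespace Pool.Agent.BHD

open Finset

/-- The bound for the core. -/
def coreB (p0 n : ℕ) : ℕ := ack (p0 + 11 * n) (n + 1)

/-- The bound for the bounded part. -/
def partB (p0 n : ℕ) : ℕ :=
  coreB p0 n + (coreB p0 n + 1) ^ n * (2 ^ n * (coreB p0 n + 1) ^ n * n)

variable {α : Type} [Fintype α] [DecidableEq α]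

theorem bounded_part {p0 : ℕ} (hp : Cst p0) (A : SimpleGraph α) (k : ℕ)
    (H : SimpleGraph (Fin (k + 1))) (hdom : Dom A H) :
    ∃ U : Finset (Fin (k + 1)), U.card ≤ partB p0 (Fintype.card α) ∧ Dom A (restr H U) := by
  classical
  set n := Fintype.card α with hn
  obtain ⟨X, -, hXB, hcov⟩ := struct_aux hp A H n (n + 1) (Nat.le_succ n) ∅
    {((∅ : Finset α), fun _ => (0 : Fin (k + 1)))} (by simp) (by simp) (by
      intro τ hτ
      rw [Finset.mem_singleton] at hτ
      subst hτ
      exact ⟨Finset.card_le_univ _, fun g hg => absurd hg (Finset.notMem_empty g)⟩)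
  have hcov' := hcov _ (Finset.mem_singleton_self _)
  set B := coreB p0 n with hB
  set K := (X.card + 1) ^ n with hK
  set M := 2 ^ n * (X.card + 1) ^ n with hM
  let Pat : Type := α → Option {x // x ∈ X}
  let sup : Pat → Finset α := fun π => Finset.univ.filter fun g => (π g).isSome
  let bas : Pat → α → Fin (k + 1) := fun π g => ((π g).map Subtype.val).getD 0
  let ι : Type := {π : Pat // Rich A H X (sup π) (bas π) M}
  have hιcard : Fintype.card ι ≤ K := by
    refine (Fintype.card_subtype_le _).trans ?_
    rw [Fintype.card_fun, Fintype.card_option, Fintype.card_coe]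
  have hr : ∀ i : ι, Rich A H X (sup i.1) (bas i.1) M := fun i => i.2
  choose r hr1 hr2 hr3 hr4 using hr
  set U : Finset (Fin (k + 1)) := X ∪ Finset.univ.biUnion fun i : ι =>
    (Finset.univ : Finset (Fin M × α)).image fun z => r i z.1 z.2 with hU
  have hXB' : X.card ≤ B := hXB
  refine ⟨U, ?_, ?_⟩
  · refine (Finset.card_union_le _ _).trans (Nat.add_le_add hXB' ?_)
    refine Finset.card_biUnion_le.trans ?_
    calc ∑ i : ι, ((Finset.univ : Finset (Fin M × α)).image fun z => r i z.1 z.2).card
        ≤ ∑ _i : ι, M * n := by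
          refine Finset.sum_le_sum fun i _ => ?_
          refine Finset.card_image_le.trans ?_
          rw [Finset.card_univ, Fintype.card_prod, Fintype.card_fin]
      _ = Fintype.card ι * (M * n) := by
          rw [Finset.sum_const, Finset.card_univ, smul_eq_mul]
      _ ≤ K * (M * n) := Nat.mul_le_mul_right _ hιcard
      _ ≤ (B + 1) ^ n * (2 ^ n * (B + 1) ^ n * n) := by
          rw [hK, hM]
          gcongr
  · refine dom_restr (X := X) (M := M) (Aset := fun i : ι => sup i.1) (base := fun i => bas i.1)
      (r := r) hdom hr1 hr2 hr3 hr4 ?_ ?_ Finset.subset_union_left ?_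
    · exact Nat.mul_le_mul_left _ hιcard
    · intro ψ hψ
      obtain ⟨S', -, hS2, hS3⟩ := hcov' ψ hψ (fun g hg => absurd hg (Finset.notMem_empty g))
      let π : Pat := fun g => if h : g ∈ S' then some ⟨ψ g, hS2 g h⟩ else none
      have hsup : sup π = S' := by
        ext g
        simp only [sup, Finset.mem_filter, Finset.mem_univ, true_and]
        by_cases h : g ∈ S' <;> simp [π, h]
      have hbas : ∀ g ∈ S', ψ g = bas π g := by
        intro g hg
        simp [bas, π, hg]
      have hrich : Rich A H X (sup π) (bas π) M := by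
        rw [hsup]
        exact rich_congr hS3 hbas
      refine ⟨⟨π, hrich⟩, ?_⟩
      intro g hg
      have hg' : g ∈ S' := hsup ▸ hg
      refine ⟨hbas g hg', ?_⟩
      change bas π g ∈ X
      rw [← hbas g hg']
      exact hS2 g hg'
    · intro i j g
      exact Finset.mem_union_right _ (Finset.mem_biUnion.2 ⟨i, Finset.mem_univ _,
        Finset.mem_image.2 ⟨(j, g), Finset.mem_univ _, rfl⟩⟩)

/-- `C` is isomorphic to a subgraph of `B`. -/
def Sub {γ β : Type} (C : SimpleGraph γ) (B : SimpleGraph β) : Prop :=
  ∃ f : γ → β, Function.Injective f ∧ ∀ a b, C.Adj a b → B.Adj (f a) (f b)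

/-- The finite basis theorem. -/
theorem basis {p0 : ℕ} (hp : Cst p0) (A : SimpleGraph α) (n : ℕ) (H : SimpleGraph (Fin n)) :
    Dom A H ↔ ∃ j ≤ partB p0 (Fintype.card α), ∃ C : SimpleGraph (Fin j), Sub C H ∧ Dom A C := by
  constructor
  · intro h
    cases n with
    | zero => exact ⟨0, Nat.zero_le _, H, ⟨id, Function.injective_id, fun _ _ h => h⟩, h⟩
    | succ k =>
      obtain ⟨U, hU, hd⟩ := bounded_part hp A k H h
      let f : Fin U.card ↪o Fin (k + 1) := U.orderEmbOfFin rfl
      refine ⟨U.card, hU, (restr H U).comap f, ⟨f, f.injective, fun a b hab => hab.1⟩, ?_⟩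
      intro k' G
      refine (le_of_eq ?_).trans (hd k' G)
      symm
      refine t_eq_sub _ _ f f.injective (fun a b hab => hab) ?_ G
      intro u v huv
      have hu : u ∈ Set.range f := by
        rw [Finset.range_orderEmbOfFin]
        exact huv.2.1
      have hv : v ∈ Set.range f := by
        rw [Finset.range_orderEmbOfFin]
        exact huv.2.2
      obtain ⟨a, rfl⟩ := hu
      obtain ⟨b, rfl⟩ := hv
      exact ⟨a, b, huv, rfl, rfl⟩
  · rintro ⟨j, -, C, ⟨f, hf, hCH⟩, hd⟩
    exact hd.mono_right f hf hCH

end Pool.Agent.BHD
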