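import Pool.Agent.BHD.Avg

/-!
# The unfolding inequality

If `φ : α → β` identifies only nonadjacent vertices of `A`, then the density of the maps
`q : α → T` satisfying a system of conditions on vertices and edges is at least a power of the
density of the maps `p : β → T` such that `p ∘ φ` satisfies it.
-/

set_option autoImplicit false

namespace Pool.Agent.BHD

open Finset

section blow

variable {α β T : Type} [Fintype α] [DecidableEq α] [Fintype β] [DecidableEq β] [Fintype T]

/-- `q` satisfies the vertex conditions `s` and the edge conditions `w` on `B`. -/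
def Cond (A : SimpleGraph α) (φ : α → β) (B : Finset α) (s : β → T → Prop)
    (w : β → β → T → T → Prop) (q : α → T) : Prop :=
  (∀ g ∈ B, s (φ g) (q g)) ∧ ∀ g ∈ B, ∀ g' ∈ B, A.Adj g g' → w (φ g) (φ g') (q g) (q g')

/-- The map that is `q` on `F` and `p ∘ φ` elsewhere. -/
def split (φ : α → β) (F : Finset α) (q : α → T) (p : β → T) : α → T :=
  fun g => if g ∈ F then q g else p (φ g)

theorem avg_sq_eq {Ω : Type} [Fintype Ω] (f : Ω → ℝ) :
    (avg f) ^ 2 = avg fun t => avg fun s => f t * f s := by
  simp only [avg_mul_left]
  rw [sq, ← avg_mul_left]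
  congr 1
  ext t
  ring

theorem avg_sq2 {Ω Ω' : Type} [Fintype Ω] [Fintype Ω'] (h : Ω → Ω' → ℝ) :
    (avg fun q => avg fun p => h q p) ^ 2 ≤ avg fun q => avg fun p => h q p ^ 2 := by
  rw [← avg_prod h, ← avg_prod (fun q p => h q p ^ 2)]
  exact avg_sq _

theorem cond_split {A : SimpleGraph α} {φ : α → β} {B : Finset α} {s : β → T → Prop}
    {w : β → β → T → T → Prop} (hφ : ∀ g g', A.Adj g g' → φ g ≠ φ g') {F : Finset α} {g0 : α}
    (hg0 : g0 ∉ F) (q : α → T) (p : β → T) (t t' : T)
    (h1 : Cond A φ B s w (split φ F q (Function.update p (φ g0) t)))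
    (h2 : Cond A φ B s w (split φ F q (Function.update p (φ g0) t'))) :
    Cond A φ B s w (split φ (insert g0 F) (Function.update q g0 t)
      (Function.update p (φ g0) t')) := by
  have e0 : split φ (insert g0 F) (Function.update q g0 t) (Function.update p (φ g0) t') g0 =
      split φ F q (Function.update p (φ g0) t) g0 := by
    simp [split, hg0]
  have e1 : ∀ g, g ≠ g0 → split φ (insert g0 F) (Function.update q g0 t)
      (Function.update p (φ g0) t') g = split φ F q (Function.update p (φ g0) t') g := by
    intro g hg
    simp [split, hg, Function.update_of_ne hg]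
  have e2 : ∀ g, g ≠ g0 → φ g ≠ φ g0 → split φ (insert g0 F) (Function.update q g0 t)
      (Function.update p (φ g0) t') g = split φ F q (Function.update p (φ g0) t) g := by
    intro g hg hg'
    simp [split, hg, Function.update_of_ne hg, Function.update_of_ne hg']
  constructor
  · intro g hg
    by_cases h : g = g0
    · subst h
      rw [e0]
      exact h1.1 g hg
    · rw [e1 g h]
      exact h2.1 g hg
  · intro g hg g' hg' hadj
    by_cases h : g = g0
    · subst h
      have hne : g' ≠ g := fun h => A.loopless.irrefl _ (h ▸ hadj)
      have hne' : φ g' ≠ φ g := fun h => hφ _ _ hadj h.symm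
      rw [e0, e2 g' hne hne']
      exact h1.2 g hg g' hg' hadj
    · by_cases h' : g' = g0
      · subst h'
        have hne' : φ g ≠ φ g' := fun h => hφ _ _ hadj h
        rw [e0, e2 g h hne']
        exact h1.2 g hg g' hg' hadj
      · rw [e1 g h, e1 g' h']
        exact h2.2 g hg g' hg' hadj

theorem split_step [Nonempty T] {A : SimpleGraph α} {φ : α → β} {B : Finset α} {s : β → T → Prop}
    {w : β → β → T → T → Prop} (hφ : ∀ g g', A.Adj g g' → φ g ≠ φ g') {F : Finset α} {g0 : α}
    (hg0 : g0 ∉ F) :
    (avg fun q : α → T => avg fun p : β → T => ind (Cond A φ B s w (split φ F q p))) ^ 2 ≤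
      avg fun q : α → T => avg fun p : β → T => ind (Cond A φ B s w (split φ (insert g0 F) q p)) := by
  have h1 : (fun q : α → T => avg fun p : β → T => ind (Cond A φ B s w (split φ F q p))) =
      fun q : α → T => avg fun p : β → T => avg fun t : T =>
        ind (Cond A φ B s w (split φ F q (Function.update p (φ g0) t))) := by
    ext q
    rw [avg_update (φ g0) (fun p : β → T => ind (Cond A φ B s w (split φ F q p)))]
  rw [h1]
  refine (avg_sq2 _).trans ?_
  have h2 : ∀ (q : α → T) (p : β → T), (avg fun t : T =>
      ind (Cond A φ B s w (split φ F q (Function.update p (φ g0) t)))) ^ 2 ≤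
      avg fun t : T => avg fun t' : T => ind (Cond A φ B s w
        (split φ (insert g0 F) (Function.update q g0 t) (Function.update p (φ g0) t'))) := by
    intro q p
    rw [avg_sq_eq]
    refine avg_mono fun t => avg_mono fun t' => ?_
    rw [← ind_and]
    exact ind_mono fun h => cond_split hφ hg0 q p t t' h.1 h.2
  refine (avg_mono fun q => avg_mono fun p => h2 q p).trans (le_of_eq ?_)
  have h3 : ∀ q : α → T, (avg fun p : β → T => avg fun t : T => avg fun t' : T =>
      ind (Cond A φ B s w (split φ (insert g0 F) (Function.update q g0 t)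
        (Function.update p (φ g0) t')))) = avg fun t : T => avg fun p : β → T =>
      ind (Cond A φ B s w (split φ (insert g0 F) (Function.update q g0 t) p)) := by
    intro q
    rw [avg_comm]
    congr 1
    ext t
    rw [avg_update (φ g0) (fun p : β → T => ind (Cond A φ B s w
      (split φ (insert g0 F) (Function.update q g0 t) p)))]
  simp only [h3]
  rw [avg_update g0 (fun q : α → T => avg fun p : β → T => ind (Cond A φ B s w
    (split φ (insert g0 F) q p)))]

theorem blow [Nonempty T] {A : SimpleGraph α} {φ : α → β} {B : Finset α} {s : β → T → Prop}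
    {w : β → β → T → T → Prop} (hφ : ∀ g g', A.Adj g g' → φ g ≠ φ g') :
    (avg fun p : β → T => ind (Cond A φ B s w (fun g => p (φ g)))) ^ (2 ^ Fintype.card α) ≤
      avg fun q : α → T => ind (Cond A φ B s w q) := by
  have key : ∀ F : Finset α,
      (avg fun p : β → T => ind (Cond A φ B s w (fun g => p (φ g)))) ^ (2 ^ F.card) ≤
      avg fun q : α → T => avg fun p : β → T => ind (Cond A φ B s w (split φ F q p)) := by
    intro F
    induction F using Finset.induction_on with
    | empty =>
      rw [Finset.card_empty, pow_zero, pow_one]
      have : ∀ (q : α → T) (p : β → T), split φ ∅ q p = fun g => p (φ g) := by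
        intro q p
        ext g
        simp [split]
      simp only [this]
      rw [avg_const]
    | insert g0 F hg0 ih =>
      rw [Finset.card_insert_of_notMem hg0, pow_succ, pow_mul]
      refine le_trans ?_ (split_step hφ hg0)
      exact pow_le_pow_left₀ (pow_nonneg (avg_nonneg fun _ => ind_nonneg _) _) ih 2
  have h := key Finset.univ
  rw [Finset.card_univ] at h
  refine h.trans (le_of_eq ?_)
  have : ∀ (q : α → T) (p : β → T), split φ Finset.univ q p = q := by
    intro q p
    ext g
    simp [split]
  simp only [this, avg_const]

end blow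

end Pool.Agent.BHD
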