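import Pool.Agent.BHD.EdgeBound

/-!
# Computability
-/

set_option autoImplicit false

namespace Pool.Agent.BHD

open Finset

/-- The graph encoded by the number of vertices and a list of edges. -/
def gr (q : ℕ × List (ℕ × ℕ)) : SimpleGraph (Fin q.1) :=
  SimpleGraph.fromRel (fun a b : Fin q.1 => (a.val, b.val) ∈ q.2)

section closure

variable {σ : Type} [Primcodable σ]

theorem primrec_false : PrimrecPred fun _ : σ => False :=
  (PrimrecRel.comp Primrec.eq (Primrec.const (0 : ℕ)) (Primrec.const (1 : ℕ))).of_eq fun _ => by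
    simp

theorem primrec_true : PrimrecPred fun _ : σ => True :=
  primrec_false.not.of_eq fun _ => by simp

theorem primrec_exists {ι : Type} [Finite ι] {P : ι → σ → Prop} (h : ∀ i, PrimrecPred (P i)) :
    PrimrecPred fun a => ∃ i, P i a := by
  classical
  have key : ∀ l : List ι, PrimrecPred fun a => ∃ i ∈ l, P i a := by
    intro l
    induction l with
    | nil => exact primrec_false.of_eq fun _ => by simp
    | cons i l ih => exact ((h i).or ih).of_eq fun _ => by simp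
  have : Fintype ι := Fintype.ofFinite ι
  exact (key Finset.univ.toList).of_eq fun _ => by simp

theorem primrec_forall {ι : Type} [Finite ι] {P : ι → σ → Prop} (h : ∀ i, PrimrecPred (P i)) :
    PrimrecPred fun a => ∀ i, P i a :=
  (primrec_exists fun i => (h i).not).not.of_eq fun a => by simp

theorem primrec_imp {c : Prop} {P : σ → Prop} (h : PrimrecPred P) :
    PrimrecPred fun a => c → P a := by
  by_cases hc : c
  · exact h.of_eq fun _ => by simp [hc]
  · exact primrec_true.of_eq fun _ => by simp [hc]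

end closure

section cont

variable {j : ℕ} (C : SimpleGraph (Fin j))

/-- The list `l` describes an embedding of `C`. -/
def R0 (l : List ℕ) (q : ℕ × List (ℕ × ℕ)) : Prop :=
  ∀ a b : Fin j, (a ≠ b → ¬ l.getD a 0 = l.getD b 0) ∧
    (C.Adj a b → ((l.getD a 0, l.getD b 0) ∈ q.2 ∨ (l.getD b 0, l.getD a 0) ∈ q.2))

/-- The list `l` can be extended by `m` entries to a description of an embedding of `C`. -/
def RR : ℕ → List ℕ → (ℕ × List (ℕ × ℕ)) → Prop
  | 0, l, q => R0 C l q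
  | m + 1, l, q => ∃ x < q.1, RR m (x :: l) q

theorem primrec_R0 : PrimrecPred fun z : List ℕ × (ℕ × List (ℕ × ℕ)) => R0 C z.1 z.2 := by
  have hget : ∀ a : ℕ, Primrec fun z : List ℕ × (ℕ × List (ℕ × ℕ)) => z.1.getD a 0 := fun a =>
    (Primrec.list_getD 0).comp Primrec.fst (Primrec.const a)
  have hL : Primrec fun z : List ℕ × (ℕ × List (ℕ × ℕ)) => z.2.2 :=
    Primrec.snd.comp Primrec.snd
  have hmem : ∀ a b : ℕ, PrimrecPred fun z : List ℕ × (ℕ × List (ℕ × ℕ)) =>
      (z.1.getD a 0, z.1.getD b 0) ∈ z.2.2 := by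
    intro a b
    have h1 : PrimrecRel fun (L : List (ℕ × ℕ)) (c : ℕ × ℕ) => ∃ d ∈ L, d = c :=
      PrimrecRel.exists_mem_list Primrec.eq
    exact (h1.comp hL ((hget a).pair (hget b))).of_eq fun z => by simp
  refine primrec_forall fun a => primrec_forall fun b => PrimrecPred.and ?_ ?_
  · exact primrec_imp (PrimrecPred.not (PrimrecRel.comp Primrec.eq (hget a) (hget b)))
  · exact primrec_imp ((hmem a b).or (hmem b a))

theorem primrec_RR (m : ℕ) :
    PrimrecPred fun z : List ℕ × (ℕ × List (ℕ × ℕ)) => RR C m z.1 z.2 := by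
  induction m with
  | zero => exact primrec_R0 C
  | succ m ih =>
    have h1 : PrimrecRel fun (x : ℕ) (z : List ℕ × (ℕ × List (ℕ × ℕ))) =>
        RR C m (x :: z.1) z.2 := by
      have h2 : Primrec fun w : ℕ × (List ℕ × (ℕ × List (ℕ × ℕ))) => (w.1 :: w.2.1, w.2.2) :=
        (Primrec.list_cons.comp Primrec.fst (Primrec.fst.comp Primrec.snd)).pair
          (Primrec.snd.comp Primrec.snd)
      exact ih.comp h2
    have h3 := h1.exists_mem_list
    have h4 : Primrec fun z : List ℕ × (ℕ × List (ℕ × ℕ)) => List.range z.2.1 :=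
      Primrec.list_range.comp (Primrec.fst.comp Primrec.snd)
    exact (h3.comp h4 Primrec.id).of_eq fun z => by simp [RR]

theorem RR_iff (m : ℕ) (l : List ℕ) (q : ℕ × List (ℕ × ℕ)) :
    RR C m l q ↔ ∃ l' : List ℕ, l'.length = m ∧ (∀ x ∈ l', x < q.1) ∧ R0 C (l' ++ l) q := by
  induction m generalizing l with
  | zero =>
    constructor
    · intro h
      exact ⟨[], rfl, by simp, h⟩
    · rintro ⟨l', h1, -, h3⟩
      rw [List.length_eq_zero_iff] at h1
      subst h1
      exact h3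
  | succ m ih =>
    constructor
    · rintro ⟨x, hx, h⟩
      obtain ⟨l', h1, h2, h3⟩ := (ih (x :: l)).1 h
      refine ⟨l' ++ [x], by simp [h1], ?_, by simpa using h3⟩
      intro y hy
      rcases List.mem_append.1 hy with h | h
      · exact h2 y h
      · rw [List.mem_singleton] at h
        subst h
        exact hx
    · rintro ⟨l', h1, h2, h3⟩
      rcases List.eq_nil_or_concat l' with h | ⟨l'', x, h⟩
      · subst h
        simp at h1
      · subst h
        rw [List.concat_eq_append] at h1 h2 h3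
        refine ⟨x, h2 x (by simp), (ih (x :: l)).2 ⟨l'', by simpa using h1, fun y hy =>
          h2 y (List.mem_append_left _ hy), by simpa using h3⟩⟩

theorem sub_iff (q : ℕ × List (ℕ × ℕ)) : Sub C (gr q) ↔ RR C j [] q := by
  rw [RR_iff]
  constructor
  · rintro ⟨f, hf, hCf⟩
    have hget : ∀ a : Fin j, (List.ofFn fun a => (f a : ℕ)).getD a 0 = f a := by
      intro a
      rw [List.getD_eq_getElem _ _ (by simp)]
      simp
    refine ⟨List.ofFn fun a => (f a : ℕ), by simp, ?_, ?_⟩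
    · intro x hx
      obtain ⟨a, rfl⟩ := (List.mem_ofFn' _ _).1 hx
      exact (f a).2
    · rw [List.append_nil]
      intro a b
      rw [hget, hget]
      refine ⟨fun hab h => hab (hf (Fin.ext h)), fun hab => ?_⟩
      have h1 := hCf a b hab
      rw [gr, SimpleGraph.fromRel_adj] at h1
      exact h1.2
  · rintro ⟨l, h1, h2, h3⟩
    rw [List.append_nil] at h3
    have hlt : ∀ a : Fin j, l.getD a 0 < q.1 := by
      intro a
      rw [List.getD_eq_getElem _ _ (by rw [h1]; exact a.2)]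
      exact h2 _ (List.getElem_mem _)
    refine ⟨fun a => ⟨l.getD a 0, hlt a⟩, ?_, ?_⟩
    · intro a b hab
      by_contra hne
      exact (h3 a b).1 hne (Fin.ext_iff.1 hab)
    · intro a b hab
      rw [gr, SimpleGraph.fromRel_adj]
      refine ⟨?_, (h3 a b).2 hab⟩
      intro h
      exact (h3 a b).1 hab.ne (Fin.ext_iff.1 h)

theorem primrec_sub : PrimrecPred fun q : ℕ × List (ℕ × ℕ) => Sub C (gr q) := by
  have h1 : Primrec fun q : ℕ × List (ℕ × ℕ) => (([] : List ℕ), q) :=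
    (Primrec.const []).pair Primrec.id
  exact ((primrec_RR C j).comp h1).of_eq fun q => (sub_iff C q).symm

end cont

section slices

/-- Graphs with at most `m` vertices. -/
abbrev GT (m : ℕ) : Type := Σ j : Fin (m + 1), SimpleGraph (Fin j)

theorem primrec_ec_le (k : ℕ) : PrimrecPred fun q : ℕ × List (ℕ × ℕ) => ec (gr q) ≤ k := by
  have h1 : PrimrecPred fun q : ℕ × List (ℕ × ℕ) =>
      ∃ i : {x : GT (2 * (k + 1)) // ec x.2 = k + 1}, Sub i.1.2 (gr q) :=
    primrec_exists fun i => primrec_sub i.1.2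
  refine h1.not.of_eq fun q => ?_
  constructor
  · intro h
    by_contra hcon
    push Not at hcon
    obtain ⟨j, hj, C, hC, hec⟩ := exists_sub_ec (gr q) (k + 1) hcon
    exact h ⟨⟨⟨⟨j, Nat.lt_succ_of_le hj⟩, C⟩, hec⟩, hC⟩
  · rintro h ⟨⟨x, hx⟩, hsub⟩
    have := hsub.ec_le
    rw [hx] at this
    omega

theorem partA {p0 : ℕ} (hp : Cst p0) (n : ℕ) :
    PrimrecPred fun p : (ℕ × List (ℕ × ℕ)) × (ℕ × List (ℕ × ℕ)) =>
      ec (gr p.1) ≤ n ∧ Dom (gr p.1) (gr p.2) := by
  have h1 : PrimrecPred fun p : (ℕ × List (ℕ × ℕ)) × (ℕ × List (ℕ × ℕ)) =>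
      ∃ (i : Fin (n + 1)) (x : {x : GT (2 * i) // ec x.2 = i}),
        (Sub x.1.2 (gr p.1) ∧ ec (gr p.1) ≤ i) ∧
          ∃ y : {y : GT (partB p0 x.1.1) // Dom x.1.2 y.2}, Sub y.1.2 (gr p.2) := by
    refine primrec_exists fun i => primrec_exists fun x => ?_
    refine PrimrecPred.and ?_ ?_
    · exact ((primrec_sub x.1.2).and (primrec_ec_le i)).comp Primrec.fst
    · exact primrec_exists fun y => (primrec_sub y.1.2).comp Primrec.snd
  refine h1.of_eq fun p => ?_
  constructor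
  · rintro ⟨i, ⟨⟨j, Γ⟩, hx⟩, ⟨h2, h3⟩, ⟨⟨j', C⟩, hy⟩, h4⟩
    simp only [] at hx h2 hy h4
    refine ⟨h3.trans (Nat.lt_succ_iff.1 i.2), ?_⟩
    intro k G
    have h5 : ec (gr p.1) ≤ ec Γ := by rw [hx]; exact h3
    rw [t_eq_of_ec h2 h5 k G]
    obtain ⟨f, hf, hCf⟩ := h4
    exact hy.mono_right f hf hCf k G
  · rintro ⟨h2, h3⟩
    obtain ⟨j, hj, Γ, hΓ, hec⟩ := exists_sub_ec (gr p.1) (ec (gr p.1)) le_rfl
    have h4 : Dom Γ (gr p.2) := by
      intro k G
      rw [← t_eq_of_ec hΓ hec.ge k G]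
      exact h3 k G
    obtain ⟨j', hj', C, hC1, hC2⟩ := (basis hp Γ _ _).1 h4
    rw [Fintype.card_fin] at hj'
    exact ⟨⟨ec (gr p.1), Nat.lt_succ_of_le h2⟩, ⟨⟨⟨j, Nat.lt_succ_of_le hj⟩, Γ⟩, hec⟩,
      ⟨hΓ, le_rfl⟩, ⟨⟨⟨j', Nat.lt_succ_of_le hj'⟩, C⟩, hC2⟩, hC1⟩

theorem partB' (n : ℕ) :
    PrimrecPred fun p : (ℕ × List (ℕ × ℕ)) × (ℕ × List (ℕ × ℕ)) =>
      ec (gr p.2) ≤ n ∧ Dom (gr p.1) (gr p.2) := by
  have h1 : PrimrecPred fun p : (ℕ × List (ℕ × ℕ)) × (ℕ × List (ℕ × ℕ)) =>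
      ∃ (i : Fin (n + 1)) (x : {x : GT (2 * i) // ec x.2 = i}),
        (Sub x.1.2 (gr p.2) ∧ ec (gr p.2) ≤ i) ∧
          ¬ ∃ y : {y : GT (2 * (i + 1)) // ¬ Dom y.2 x.1.2}, Sub y.1.2 (gr p.1) := by
    refine primrec_exists fun i => primrec_exists fun x => ?_
    refine PrimrecPred.and ?_ ?_
    · exact ((primrec_sub x.1.2).and (primrec_ec_le i)).comp Primrec.snd
    · refine PrimrecPred.not (primrec_exists fun (y : {y : GT (2 * (i + 1)) // ¬ Dom y.2 x.1.2}) => ?_)
      exact (primrec_sub y.1.2).comp Primrec.fst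
  refine h1.of_eq fun p => ?_
  constructor
  · rintro ⟨i, ⟨⟨j, Γ⟩, hx⟩, ⟨h2, h3⟩, h4⟩
    simp only [] at hx h2 h4
    refine ⟨h3.trans (Nat.lt_succ_iff.1 i.2), ?_⟩
    have h5 : ec (gr p.2) ≤ ec Γ := by rw [hx]; exact h3
    have h6 : Dom (gr p.1) Γ := by
      by_contra hcon
      apply h4
      rcases Nat.lt_or_ge i (ec (gr p.1)) with h | h
      · obtain ⟨j', hj', C, hC, hec⟩ := exists_sub_ec (gr p.1) (i + 1) h
        refine ⟨⟨⟨⟨j', Nat.lt_succ_of_le hj'⟩, C⟩, fun hd => ?_⟩, hC⟩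
        have := hd.ec_le
        simp only [] at this
        omega
      · obtain ⟨j', hj', C, hC, hec⟩ := exists_sub_ec (gr p.1) (ec (gr p.1)) le_rfl
        refine ⟨⟨⟨⟨j', by omega⟩, C⟩, fun hd => hcon ?_⟩, hC⟩
        intro k G
        rw [t_eq_of_ec hC hec.ge k G]
        exact hd k G
    intro k G
    rw [t_eq_of_ec h2 h5 k G]
    exact h6 k G
  · rintro ⟨h2, h3⟩
    obtain ⟨j, hj, Γ, hΓ, hec⟩ := exists_sub_ec (gr p.2) (ec (gr p.2)) le_rfl
    refine ⟨⟨ec (gr p.2), Nat.lt_succ_of_le h2⟩, ⟨⟨⟨j, Nat.lt_succ_of_le hj⟩, Γ⟩, hec⟩,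
      ⟨hΓ, le_rfl⟩, ?_⟩
    rintro ⟨⟨⟨j', C⟩, hy⟩, hsub⟩
    simp only [] at hy hsub
    apply hy
    obtain ⟨f, hf, hCf⟩ := hsub
    have h4 : Dom (gr p.1) Γ := by
      intro k G
      rw [← t_eq_of_ec hΓ hec.ge k G]
      exact h3 k G
    exact h4.mono_left f hf hCf

end slices

end Pool.Agent.BHD
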