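import Pool.Agent.BHD.Blow

/-!
# The core inequality

`X` is a set of vertices of `H` (the core), and for every index `i` (a pattern) there are `M` homs
`r i j : A → H` that agree on `Aset i` (mapped to `X`) and whose other values (the petals) are
outside `X` and pairwise disjoint. If the density of the core is bounded by the densities of the
patterns (`hL`), then the density of `H` is bounded by the densities of the homs `r i j`.
-/

set_option autoImplicit false

namespace Pool.Agent.BHD

open Finset

section core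

variable {α β T ι : Type} [Fintype α] [DecidableEq α] [Fintype β] [DecidableEq β] [Fintype T]
  [Fintype ι] [DecidableEq ι]

/-- The density of the maps `α → T` compatible with the coloured relation `W`. -/
noncomputable def cd (A : SimpleGraph α) (φ : α → β) (W : β → β → T → T → Prop) : ℝ :=
  avg fun y : α → T => ind (∀ g g', A.Adj g g' → W (φ g) (φ g') (y g) (y g'))

/-- The edge conditions on `X`. -/
def EX (H : SimpleGraph β) (X : Finset β) (W : β → β → T → T → Prop) (x : β → T) : Prop :=
  ∀ u ∈ X, ∀ v ∈ X, H.Adj u v → W u v (x u) (x v)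

/-- The density of the core. -/
noncomputable def cX (H : SimpleGraph β) (X : Finset β) (S : β → T → Prop)
    (W : β → β → T → T → Prop) : ℝ :=
  avg fun x : β → T => ind ((∀ u ∈ X, S u (x u)) ∧ EX H X W x)

/-- The density of a pattern. -/
noncomputable def cP (A : SimpleGraph α) (B : Finset α) (φ : α → β) (S : β → T → Prop)
    (W : β → β → T → T → Prop) : ℝ :=
  avg fun y : α → T => ind ((∀ g ∈ B, (∃ g', A.Adj g g') → S (φ g) (y g)) ∧
    ∀ g ∈ B, ∀ g' ∈ B, A.Adj g g' → W (φ g) (φ g') (y g) (y g'))

/-- The vertex conditions imposed by the values `x` on `X`. -/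
def sx (H : SimpleGraph β) (X : Finset β) (W : β → β → T → T → Prop) (x : β → T) :
    β → T → Prop := fun b t => ∀ u ∈ X, H.Adj b u → W b u t (x u)

omit [Fintype α] [Fintype β] [DecidableEq β] [Fintype T] [DecidableEq α] in
theorem cond_congr {A : SimpleGraph α} {φ : α → β} {B : Finset α} {s : β → T → Prop}
    {w : β → β → T → T → Prop} {q q' : α → T} (h : ∀ g ∈ B, q g = q' g)
    (hq : Cond A φ B s w q) : Cond A φ B s w q' := by
  constructor
  · intro g hg
    rw [← h g hg]
    exact hq.1 g hg
  · intro g hg g' hg' hadj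
    rw [← h g hg, ← h g' hg']
    exact hq.2 g hg g' hg' hadj

variable {A : SimpleGraph α} {H : SimpleGraph β} {X : Finset β} {M : ℕ} {Aset : ι → Finset α}
  {base : ι → α → β} {r : ι → Fin M → α → β}

/-- Step A: the inequality for one choice of petals. -/
theorem stepA [Nonempty T] (W : β → β → T → T → Prop)
    (hsym : ∀ u v x y, W u v x y → W v u y x)
    (hom : ∀ i j g g', A.Adj g g' → H.Adj (r i j g) (r i j g'))
    (agree : ∀ i j, ∀ g ∈ Aset i, r i j g = base i g)
    (c : ℝ) (hc : 0 ≤ c)
    (hL : ∀ S : β → T → Prop, cX H X S W ≤ c * ∑ i, cP A (Aset i) (base i) S W)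
    (k : ι → Fin M) :
    (avg fun x : β → T => ind (EX H X W x) * ∏ i, avg fun q : α → T =>
      ind (Cond A (r i (k i)) (Aset i)ᶜ (sx H X W x) W q)) ≤ c * ∑ i, cd A (r i (k i)) W := by
  classical
  set S : (ι → α → T) → β → T → Prop := fun q u z =>
    ∀ i, ∀ g ∈ (Aset i)ᶜ, H.Adj (r i (k i) g) u → W (r i (k i) g) u (q i g) z with hS
  set N : (ι → α → T) → Prop := fun q => ∀ i, ∀ g ∈ (Aset i)ᶜ, ∀ g' ∈ (Aset i)ᶜ, A.Adj g g' →
    W (r i (k i) g) (r i (k i) g') (q i g) (q i g') with hN
  have h1 : ∀ x : β → T, (ind (EX H X W x) * ∏ i, avg fun q : α → T =>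
      ind (Cond A (r i (k i)) (Aset i)ᶜ (sx H X W x) W q)) =
      avg fun q : ι → α → T => ind (N q) * ind ((∀ u ∈ X, S q u (x u)) ∧ EX H X W x) := by
    intro x
    rw [← avg_pi, ← avg_mul_left]
    congr 1
    ext q
    rw [← ind_forall, ← ind_and, ← ind_and]
    apply ind_congr
    constructor
    · rintro ⟨h1, h2⟩
      refine ⟨fun i => (h2 i).2, fun u hu i g hg hadj => (h2 i).1 g hg u hu hadj, h1⟩
    · rintro ⟨h1, h2, h3⟩
      exact ⟨h3, fun i => ⟨fun g hg u hu hadj => h2 u hu i g hg hadj, h1 i⟩⟩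
  simp only [h1]
  rw [avg_comm]
  have h2 : ∀ q : ι → α → T, (avg fun x : β → T => ind (N q) *
      ind ((∀ u ∈ X, S q u (x u)) ∧ EX H X W x)) ≤
      c * ∑ i, ind (N q) * cP A (Aset i) (base i) (S q) W := by
    intro q
    rw [avg_mul_left, ← Finset.mul_sum]
    have := mul_le_mul_of_nonneg_left (hL (S q)) (ind_nonneg (N q))
    refine le_trans this (le_of_eq ?_)
    ring
  refine (avg_mono h2).trans ?_
  rw [avg_mul_left, avg_sum]
  refine mul_le_mul_of_nonneg_left (Finset.sum_le_sum fun i _ => ?_) hc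
  have h3 : ∀ q : ι → α → T, ind (N q) * cP A (Aset i) (base i) (S q) W ≤
      avg fun y : α → T => ind (∀ g g', A.Adj g g' → W (r i (k i) g) (r i (k i) g')
        (mix (Aset i) y (q i) g) (mix (Aset i) y (q i) g')) := by
    intro q
    rw [cP, ← avg_mul_left]
    refine avg_mono fun y => ?_
    rw [← ind_and]
    apply ind_mono
    rintro ⟨hNq, hy1, hy2⟩ g g' hadj
    by_cases hg : g ∈ Aset i
    · by_cases hg' : g' ∈ Aset i
      · rw [mix_mem hg, mix_mem hg', agree i (k i) g hg, agree i (k i) g' hg']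
        exact hy2 g hg g' hg' hadj
      · rw [mix_mem hg, mix_notMem hg']
        apply hsym
        have h4 := hy1 g hg ⟨g', hadj⟩ i g' (Finset.mem_compl.2 hg')
        rw [← agree i (k i) g hg] at h4
        exact h4 (hom i (k i) g' g hadj.symm)
    · by_cases hg' : g' ∈ Aset i
      · rw [mix_notMem hg, mix_mem hg']
        have h4 := hy1 g' hg' ⟨g, hadj.symm⟩ i g (Finset.mem_compl.2 hg)
        rw [← agree i (k i) g' hg'] at h4
        exact h4 (hom i (k i) g g' hadj)
      · rw [mix_notMem hg, mix_notMem hg']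
        exact hNq i g (Finset.mem_compl.2 hg) g' (Finset.mem_compl.2 hg') hadj
  refine (avg_mono h3).trans (le_of_eq ?_)
  rw [avg_eval i (fun q : α → T => avg fun y : α → T => ind (∀ g g', A.Adj g g' →
    W (r i (k i) g) (r i (k i) g') (mix (Aset i) y q g) (mix (Aset i) y q g'))), avg_comm,
    avg_mix (Aset i) (fun z : α → T => ind (∀ g g', A.Adj g g' →
      W (r i (k i) g) (r i (k i) g') (z g) (z g')))]
  rfl

/-- The density of the petal `j` of the pattern `i` given `x`. -/
noncomputable def uij (A : SimpleGraph α) (H : SimpleGraph β) (X : Finset β) (Aset : ι → Finset α)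
    (r : ι → Fin M → α → β) (W : β → β → T → T → Prop) (x : β → T) (i : ι) (j : Fin M) : ℝ :=
  avg fun p : β → T => ind (Cond A (r i j) (Aset i)ᶜ (sx H X W x) W (fun g => p (r i j g)))

omit [Fintype ι] [DecidableEq ι] in
theorem uij_nonneg (W : β → β → T → T → Prop) (x : β → T) (i : ι) (j : Fin M) :
    0 ≤ uij A H X Aset r W x i j := avg_nonneg fun _ => ind_nonneg _

omit [Fintype ι] [DecidableEq ι] in
theorem uij_le_one [Nonempty T] (W : β → β → T → T → Prop) (x : β → T) (i : ι) (j : Fin M) :
    uij A H X Aset r W x i j ≤ 1 := avg_le_one fun _ => ind_le_one _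

theorem hle [Nonempty T] (W : β → β → T → T → Prop)
    (hom : ∀ i j g g', A.Adj g g' → H.Adj (r i j g) (r i j g'))
    (outX : ∀ i j, ∀ g ∉ Aset i, r i j g ∉ X)
    (disj : ∀ i j j', j ≠ j' → ∀ g ∉ Aset i, ∀ g' ∉ Aset i, r i j g ≠ r i j' g')
    (x : β → T) (i : ι) :
    (avg fun p : β → T => ind (∀ u v, H.Adj u v → W u v (mix X x p u) (mix X x p v))) ≤
      ind (EX H X W x) * ∏ j, uij A H X Aset r W x i j := by
  classical
  have h1 : ∀ p : β → T, ind (∀ u v, H.Adj u v → W u v (mix X x p u) (mix X x p v)) ≤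
      ind (EX H X W x) * ∏ j, ind (Cond A (r i j) (Aset i)ᶜ (sx H X W x) W
        (fun g => p (r i j g))) := by
    intro p
    rw [← ind_forall, ← ind_and]
    apply ind_mono
    intro h
    refine ⟨?_, ?_⟩
    · intro u hu v hv hadj
      have := h u v hadj
      rwa [mix_mem hu, mix_mem hv] at this
    · intro j
      constructor
      · intro g hg u hu hadj
        have := h (r i j g) u hadj
        rwa [mix_notMem (outX i j g (Finset.mem_compl.1 hg)), mix_mem hu] at this
      · intro g hg g' hg' hadj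
        have := h (r i j g) (r i j g') (hom i j g g' hadj)
        rwa [mix_notMem (outX i j g (Finset.mem_compl.1 hg)),
          mix_notMem (outX i j g' (Finset.mem_compl.1 hg'))] at this
  refine (avg_mono h1).trans (le_of_eq ?_)
  rw [avg_mul_left]
  congr 1
  rw [avg_prod_indep Finset.univ (fun j => (Aset i)ᶜ.image (r i j))
    (fun j p => ind (Cond A (r i j) (Aset i)ᶜ (sx H X W x) W (fun g => p (r i j g))))]
  · rfl
  · intro j p p' h
    apply ind_congr
    constructor
    · exact cond_congr fun g hg => h _ (Finset.mem_image_of_mem _ hg)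
    · exact cond_congr fun g hg => (h _ (Finset.mem_image_of_mem _ hg)).symm
  · intro j j' hjj'
    rw [Finset.disjoint_left]
    intro b hb hb'
    obtain ⟨g, hg, rfl⟩ := Finset.mem_image.1 hb
    obtain ⟨g', hg', h⟩ := Finset.mem_image.1 hb'
    exact disj i j j' hjj' g (Finset.mem_compl.1 hg) g' (Finset.mem_compl.1 hg') h.symm

/-- Step B. -/
theorem stepB [Nonempty T] (W : β → β → T → T → Prop)
    (hom : ∀ i j g g', A.Adj g g' → H.Adj (r i j g) (r i j g'))
    (outX : ∀ i j, ∀ g ∉ Aset i, r i j g ∉ X)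
    (disj : ∀ i j j', j ≠ j' → ∀ g ∉ Aset i, ∀ g' ∉ Aset i, r i j g ≠ r i j' g')
    (hM : 2 ^ Fintype.card α * Fintype.card ι ≤ M) (x : β → T) :
    (avg fun p : β → T => ind (∀ u v, H.Adj u v → W u v (mix X x p u) (mix X x p v))) ≤
      ind (EX H X W x) * ∑ k : ι → Fin M, ∏ i,
        (uij A H X Aset r W x i (k i)) ^ (2 ^ Fintype.card α) := by
  classical
  set C := 2 ^ Fintype.card α with hC
  have hC0 : 0 < C := by positivity
  set h := avg fun p : β → T => ind (∀ u v, H.Adj u v → W u v (mix X x p u) (mix X x p v)) with hh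
  have hh0 : 0 ≤ h := avg_nonneg fun _ => ind_nonneg _
  have hterm : ∀ k : ι → Fin M, 0 ≤ ∏ i, (uij A H X Aset r W x i (k i)) ^ C := fun k =>
    Finset.prod_nonneg fun i _ => pow_nonneg (uij_nonneg W x i (k i)) _
  by_cases hE : EX H X W x
  swap
  · have h0 : h ≤ 0 := by
      have : ∀ p : β → T, ind (∀ u v, H.Adj u v → W u v (mix X x p u) (mix X x p v)) = 0 := by
        intro p
        apply ind_false
        intro hp
        apply hE
        intro u hu v hv hadj
        have := hp u v hadj
        rwa [mix_mem hu, mix_mem hv] at this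
      rw [hh]
      simp only [this]
      rw [avg_const]
    rw [ind_false hE, zero_mul]
    exact h0
  rw [ind_true hE, one_mul]
  rcases isEmpty_or_nonempty ι with hι | hι
  · have h1 : h ≤ 1 := avg_le_one fun _ => ind_le_one _
    refine h1.trans ?_
    have : Nonempty (ι → Fin M) := ⟨fun i => hι.elim i⟩
    obtain ⟨k⟩ := this
    calc (1 : ℝ) = ∏ i, (uij A H X Aset r W x i (k i)) ^ C := by
          rw [Finset.univ_eq_empty, Finset.prod_empty]
      _ ≤ _ := Finset.single_le_sum (fun k _ => hterm k) (Finset.mem_univ k)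
  · have hcard : 0 < Fintype.card ι := Fintype.card_pos
    have hM0 : 0 < M := lt_of_lt_of_le (Nat.mul_pos hC0 hcard) hM
    have : Nonempty (Fin M) := ⟨⟨0, hM0⟩⟩
    have hmax : ∀ i, ∃ j, ∀ j', uij A H X Aset r W x i j' ≤ uij A H X Aset r W x i j := fun i =>
      Finite.exists_max _
    choose k hk using hmax
    have hi : ∀ i, h ≤ (uij A H X Aset r W x i (k i)) ^ (C * Fintype.card ι) := by
      intro i
      have h1 := hle W hom outX disj x i
      rw [ind_true hE, one_mul] at h1
      refine h1.trans ?_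
      calc ∏ j, uij A H X Aset r W x i j ≤ ∏ _j : Fin M, uij A H X Aset r W x i (k i) :=
            Finset.prod_le_prod (fun j _ => uij_nonneg W x i j) fun j _ => hk i j
        _ = uij A H X Aset r W x i (k i) ^ M := by
            rw [Finset.prod_const, Finset.card_univ, Fintype.card_fin]
        _ ≤ _ := pow_le_pow_of_le_one (uij_nonneg W x i (k i)) (uij_le_one W x i (k i)) hM
    have h2 : h ^ Fintype.card ι ≤
        (∏ i, (uij A H X Aset r W x i (k i)) ^ C) ^ Fintype.card ι := by
      calc h ^ Fintype.card ι = ∏ _i : ι, h := by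
            rw [Finset.prod_const, Finset.card_univ]
        _ ≤ ∏ i, (uij A H X Aset r W x i (k i)) ^ (C * Fintype.card ι) :=
            Finset.prod_le_prod (fun _ _ => hh0) fun i _ => hi i
        _ = _ := by
            rw [← Finset.prod_pow]
            refine Finset.prod_congr rfl fun i _ => ?_
            rw [pow_mul]
    have h3 : h ≤ ∏ i, (uij A H X Aset r W x i (k i)) ^ C :=
      le_of_pow_le_pow_left₀ hcard.ne' (hterm k) h2
    exact h3.trans (Finset.single_le_sum (fun k _ => hterm k) (Finset.mem_univ k))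

/-- The core inequality. -/
theorem core [Nonempty T] (W : β → β → T → T → Prop)
    (hsym : ∀ u v x y, W u v x y → W v u y x)
    (hom : ∀ i j g g', A.Adj g g' → H.Adj (r i j g) (r i j g'))
    (agree : ∀ i j, ∀ g ∈ Aset i, r i j g = base i g)
    (outX : ∀ i j, ∀ g ∉ Aset i, r i j g ∉ X)
    (disj : ∀ i j j', j ≠ j' → ∀ g ∉ Aset i, ∀ g' ∉ Aset i, r i j g ≠ r i j' g')
    (hM : 2 ^ Fintype.card α * Fintype.card ι ≤ M)
    (c : ℝ) (hc : 0 ≤ c)
    (hL : ∀ S : β → T → Prop, cX H X S W ≤ c * ∑ i, cP A (Aset i) (base i) S W) :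
    cd H id W ≤ c * ∑ k : ι → Fin M, ∑ i, cd A (r i (k i)) W := by
  classical
  have h1 : cd H id W = avg fun x : β → T => avg fun p : β → T =>
      ind (∀ u v, H.Adj u v → W u v (mix X x p u) (mix X x p v)) :=
    (avg_mix X (fun x : β → T => ind (∀ u v, H.Adj u v → W u v (x u) (x v)))).symm
  rw [h1]
  refine (avg_mono fun x => stepB W hom outX disj hM x).trans ?_
  simp only [Finset.mul_sum]
  rw [avg_sum]
  refine Finset.sum_le_sum fun k _ => ?_
  rw [← Finset.mul_sum]
  refine le_trans (avg_mono fun x => ?_) (stepA W hsym hom agree c hc hL k)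
  refine mul_le_mul_of_nonneg_left ?_ (ind_nonneg _)
  refine Finset.prod_le_prod (fun i _ => pow_nonneg (uij_nonneg W x i (k i)) _) fun i _ => ?_
  refine blow (φ := r i (k i)) ?_
  intro g g' hadj h
  have := hom i (k i) g g' hadj
  rw [h] at this
  exact H.loopless.irrefl _ this

end core

end Pool.Agent.BHD
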