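import Pool.Agent.BHD.Core

/-!
# Homomorphism densities and domination
-/

set_option autoImplicit false

namespace Pool.Agent.BHD

open Finset

section dens

variable {α β γ V V' : Type} [Fintype α] [DecidableEq α] [Fintype β] [DecidableEq β]
  [Fintype γ] [DecidableEq γ] [Fintype V] [Fintype V']

/-- The homomorphism density `t(A, G)`. -/
noncomputable def t (A : SimpleGraph α) (G : SimpleGraph V) : ℝ :=
  avg fun f : α → V => ind (∀ i j, A.Adj i j → G.Adj (f i) (f j))

/-- `t(B, G) ≤ t(A, G)` for all graphs `G`. -/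
def Dom (A : SimpleGraph α) (B : SimpleGraph β) : Prop :=
  ∀ (k : ℕ) (G : SimpleGraph (Fin (k + 1))), t B G ≤ t A G

theorem t_nonneg (A : SimpleGraph α) (G : SimpleGraph V) : 0 ≤ t A G :=
  avg_nonneg fun _ => ind_nonneg _

theorem t_comap (e : V ≃ V') (A : SimpleGraph α) (G : SimpleGraph V') :
    t A (G.comap e) = t A G := by
  have h := avg_equiv (Equiv.arrowCongr (Equiv.refl α) e)
    (fun f : α → V' => ind (∀ i j, A.Adj i j → G.Adj (f i) (f j)))
  rw [t, t, ← h]
  rfl

theorem Dom.all {A : SimpleGraph α} {B : SimpleGraph β} (h : Dom A B) [Nonempty V]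
    (G : SimpleGraph V) : t B G ≤ t A G := by
  obtain ⟨k, hk⟩ : ∃ k, Fintype.card V = k + 1 :=
    ⟨Fintype.card V - 1, by have := Fintype.card_pos (α := V); omega⟩
  let e : Fin (k + 1) ≃ V := (Fintype.equivFinOfCardEq hk).symm
  have := h k (G.comap e)
  rwa [t_comap, t_comap] at this

/-- Averaging a function of `x ∘ f`, `f` injective. -/
theorem avg_comp_inj [Nonempty V] (f : γ → β) (hf : Function.Injective f) (F : (γ → V) → ℝ) :
    (avg fun x : β → V => F (fun a => x (f a))) = avg F := by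
  classical
  let p : β → Prop := fun b => b ∈ Set.range f
  let e1 : (β → V) ≃ ({b // p b} → V) × ({b // ¬ p b} → V) := Equiv.piEquivPiSubtypeProd p fun _ => V
  let e2 : (γ → V) ≃ ({b // p b} → V) := Equiv.arrowCongr (Equiv.ofInjective f hf) (Equiv.refl V)
  have h1 := avg_equiv e1 (fun z => F (e2.symm z.1))
  have h2 : (fun x : β → V => F (e2.symm (e1 x).1)) = fun x : β → V => F (fun a => x (f a)) := by
    ext x
    congr 1
  rw [h2] at h1
  rw [h1, avg_prod (fun (z : {b // p b} → V) (_ : {b // ¬ p b} → V) => F (e2.symm z))]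
  simp only [avg_const]
  exact avg_equiv e2.symm F

theorem t_mono_sub [Nonempty V] (C : SimpleGraph γ) (B : SimpleGraph β) (f : γ → β)
    (hf : Function.Injective f) (h : ∀ a b, C.Adj a b → B.Adj (f a) (f b)) (G : SimpleGraph V) :
    t B G ≤ t C G := by
  rw [t, t, ← avg_comp_inj f hf]
  refine avg_mono fun x => ind_mono fun hx => ?_
  intro i j hij
  exact hx _ _ (h i j hij)

theorem t_eq_sub [Nonempty V] (C : SimpleGraph γ) (B : SimpleGraph β) (f : γ → β)
    (hf : Function.Injective f) (h : ∀ a b, C.Adj a b → B.Adj (f a) (f b))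
    (h' : ∀ u v, B.Adj u v → ∃ a b, C.Adj a b ∧ f a = u ∧ f b = v) (G : SimpleGraph V) :
    t B G = t C G := by
  refine le_antisymm (t_mono_sub C B f hf h G) ?_
  rw [t, t, ← avg_comp_inj f hf]
  refine avg_mono fun x => ind_mono fun hx => ?_
  intro u v huv
  obtain ⟨a, b, hab, rfl, rfl⟩ := h' u v huv
  exact hx a b hab

theorem Dom.mono_right {A : SimpleGraph α} {C : SimpleGraph γ} {B : SimpleGraph β}
    (hd : Dom A C) (f : γ → β) (hf : Function.Injective f)
    (h : ∀ a b, C.Adj a b → B.Adj (f a) (f b)) : Dom A B :=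
  fun k G => (t_mono_sub C B f hf h G).trans (hd k G)

theorem Dom.mono_left {A : SimpleGraph α} {C : SimpleGraph γ} {B : SimpleGraph β}
    (hd : Dom B A) (f : γ → β) (hf : Function.Injective f)
    (h : ∀ a b, C.Adj a b → B.Adj (f a) (f b)) : Dom C A :=
  fun k G => (hd k G).trans (t_mono_sub C B f hf h G)

theorem pow_trick {a b c : ℝ} (hb : 0 ≤ b) (h : ∀ m : ℕ, a ^ m ≤ c * b ^ m) :
    a ≤ b := by
  by_contra hab
  push Not at hab
  rcases eq_or_lt_of_le hb with hb0 | hb0
  · have := h 1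
    rw [← hb0] at this hab
    simp at this
    linarith
  · have h1 : 1 < a / b := (one_lt_div hb0).2 hab
    obtain ⟨n, hn⟩ := pow_unbounded_of_one_lt c h1
    have h2 := h n
    rw [div_pow, lt_div_iff₀ (pow_pos hb0 n)] at hn
    linarith

end dens

section col

variable {α β T : Type} [Fintype α] [DecidableEq α] [Fintype β] [DecidableEq β] [Fintype T]

/-- The power of a coloured relation. -/
def Wpow (W : β → β → T → T → Prop) (m : ℕ) : β → β → (Fin m → T) → (Fin m → T) → Prop :=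
  fun u v x y => ∀ i, W u v (x i) (y i)

omit [Fintype β] [DecidableEq β] in
theorem cd_pow (A : SimpleGraph α) (φ : α → β) (W : β → β → T → T → Prop) (m : ℕ) :
    cd A φ (Wpow W m) = cd A φ W ^ m := by
  classical
  have h1 := avg_equiv (Equiv.piComm fun (_ : α) (_ : Fin m) => T)
    (fun z : Fin m → α → T => ∏ i, ind (∀ g g', A.Adj g g' → W (φ g) (φ g') (z i g) (z i g')))
  have h2 : (fun x : α → Fin m → T => ∏ i, ind (∀ g g', A.Adj g g' → W (φ g) (φ g')
      ((Equiv.piComm fun (_ : α) (_ : Fin m) => T) x i g)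
      ((Equiv.piComm fun (_ : α) (_ : Fin m) => T) x i g'))) = fun x : α → Fin m → T =>
      ind (∀ g g', A.Adj g g' → Wpow W m (φ g) (φ g') (x g) (x g')) := by
    ext x
    rw [← ind_forall]
    apply ind_congr
    constructor
    · intro h g g' hadj i
      exact h i g g' hadj
    · intro h i g g' hadj
      exact h g g' hadj i
  rw [h2] at h1
  rw [cd, h1, avg_pi (fun (_ : Fin m) (z : α → T) =>
    ind (∀ g g', A.Adj g g' → W (φ g) (φ g') (z g) (z g')))]
  rw [Finset.prod_const, Finset.card_univ, Fintype.card_fin]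
  rfl

/-- The coloured graph. -/
def colG (H : SimpleGraph β) (W : β → β → T → T → Prop)
    (hsym : ∀ u v x y, W u v x y → W v u y x) : SimpleGraph (β × T) where
  Adj a b := H.Adj a.1 b.1 ∧ W a.1 b.1 a.2 b.2
  symm := ⟨fun _ _ h => ⟨h.1.symm, hsym _ _ _ _ h.2⟩⟩
  loopless := ⟨fun _ h => H.loopless.irrefl _ h.1⟩

theorem avg_ge_term {Ω : Type} [Fintype Ω] {f : Ω → ℝ} (hf : ∀ x, 0 ≤ f x) (x : Ω) :
    f x ≤ (Fintype.card Ω : ℝ) * avg f := by
  have : Nonempty Ω := ⟨x⟩
  have hc : (0 : ℝ) < Fintype.card Ω := by exact_mod_cast Fintype.card_pos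
  rw [avg, mul_div_cancel₀ _ hc.ne']
  exact Finset.single_le_sum (fun x _ => hf x) (Finset.mem_univ x)

theorem avg_le_sum {Ω : Type} [Fintype Ω] {f : Ω → ℝ} (hf : ∀ x, 0 ≤ f x) :
    avg f ≤ ∑ x, f x := by
  rcases isEmpty_or_nonempty Ω with h | h
  · simp [avg]
  · have hc : (1 : ℝ) ≤ Fintype.card Ω := by exact_mod_cast Fintype.card_pos
    rw [avg]
    exact div_le_self (Finset.sum_nonneg fun x _ => hf x) hc

theorem color [Nonempty β] [Nonempty T] {A : SimpleGraph α} {H : SimpleGraph β} (hd : Dom A H)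
    (W : β → β → T → T → Prop) (hsym : ∀ u v x y, W u v x y → W v u y x) :
    cd H id W ≤ (Fintype.card (β → β) : ℝ) *
      ∑ ψ : α → β, ind (∀ g g', A.Adj g g' → H.Adj (ψ g) (ψ g')) * cd A ψ W := by
  classical
  have key : ∀ (δ : Type) [Fintype δ] [DecidableEq δ] (B : SimpleGraph δ),
      t B (colG H W hsym) = avg fun ψ : δ → β =>
        ind (∀ g g', B.Adj g g' → H.Adj (ψ g) (ψ g')) * cd B ψ W := by
    intro δ _ _ B
    have h1 := avg_equiv (Equiv.arrowProdEquivProdArrow δ (fun _ => β) (fun _ => T))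
      (fun z : (δ → β) × (δ → T) => ind (∀ g g', B.Adj g g' → H.Adj (z.1 g) (z.1 g')) *
        ind (∀ g g', B.Adj g g' → W (z.1 g) (z.1 g') (z.2 g) (z.2 g')))
    rw [t]
    have h2 : (fun f : δ → β × T => ind (∀ i j, B.Adj i j → (colG H W hsym).Adj (f i) (f j))) =
        fun f : δ → β × T => (fun z : (δ → β) × (δ → T) =>
          ind (∀ g g', B.Adj g g' → H.Adj (z.1 g) (z.1 g')) *
          ind (∀ g g', B.Adj g g' → W (z.1 g) (z.1 g') (z.2 g) (z.2 g')))
          ((Equiv.arrowProdEquivProdArrow δ (fun _ => β) (fun _ => T)) f) := by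
      ext f
      simp only []
      rw [← ind_and]
      apply ind_congr
      constructor
      · intro h
        exact ⟨fun g g' hadj => (h g g' hadj).1, fun g g' hadj => (h g g' hadj).2⟩
      · intro h g g' hadj
        exact ⟨h.1 g g' hadj, h.2 g g' hadj⟩
    rw [h2, h1, avg_prod (fun (ψ : δ → β) (y : δ → T) =>
      ind (∀ g g', B.Adj g g' → H.Adj (ψ g) (ψ g')) *
        ind (∀ g g', B.Adj g g' → W (ψ g) (ψ g') (y g) (y g')))]
    simp only [avg_mul_left]
    rfl
  have hnn : ∀ (δ : Type) [Fintype δ] [DecidableEq δ] (B : SimpleGraph δ) (ψ : δ → β),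
      0 ≤ ind (∀ g g', B.Adj g g' → H.Adj (ψ g) (ψ g')) * cd B ψ W := by
    intro δ _ _ B ψ
    exact mul_nonneg (ind_nonneg _) (avg_nonneg fun _ => ind_nonneg _)
  have h3 := hd.all (colG H W hsym)
  rw [key, key] at h3
  have h4 := avg_ge_term (hnn β H) (id : β → β)
  rw [ind_true (show ∀ g g', H.Adj g g' → H.Adj (id g) (id g') from fun g g' h => h), one_mul] at h4
  refine h4.trans ?_
  refine mul_le_mul_of_nonneg_left ?_ (Nat.cast_nonneg _)
  exact h3.trans (avg_le_sum (hnn α A))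

/-- The core inequality follows from domination. -/
theorem core_of_dom {ι : Type} [Fintype ι] [Nonempty β] [Nonempty T] {A : SimpleGraph α}
    {H : SimpleGraph β} (hd : Dom A H) (X : Finset β) (Aset : ι → Finset α) (base : ι → α → β)
    (cover : ∀ ψ : α → β, (∀ g g', A.Adj g g' → H.Adj (ψ g) (ψ g')) →
      ∃ i, ∀ g ∈ Aset i, ψ g = base i g ∧ base i g ∈ X)
    (W : β → β → T → T → Prop) (hsym : ∀ u v x y, W u v x y → W v u y x) (S : β → T → Prop) :
    cX H X S W ≤ ((Fintype.card (β → β) : ℝ) * (Fintype.card (α → β) : ℝ)) *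
      ∑ i, cP A (Aset i) (base i) S W := by
  classical
  set W' : β → β → T → T → Prop := fun u v x y =>
    (u ∈ X → S u x) ∧ (v ∈ X → S v y) ∧ (u ∈ X → v ∈ X → W u v x y) with hW'
  have hsym' : ∀ u v x y, W' u v x y → W' v u y x := by
    intro u v x y h
    exact ⟨h.2.1, h.1, fun hv hu => hsym _ _ _ _ (h.2.2 hu hv)⟩
  have h1 : cX H X S W ≤ cd H id W' := by
    refine avg_mono fun x => ind_mono fun h => ?_
    intro u v hadj
    exact ⟨fun hu => h.1 u hu, fun hv => h.1 v hv, fun hu hv => h.2 u hu v hv hadj⟩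
  refine h1.trans ((color hd W' hsym').trans ?_)
  rw [mul_assoc]
  refine mul_le_mul_of_nonneg_left ?_ (Nat.cast_nonneg _)
  have hnn : ∀ i, 0 ≤ cP A (Aset i) (base i) S W := fun i => avg_nonneg fun _ => ind_nonneg _
  have h2 : ∀ ψ : α → β, ind (∀ g g', A.Adj g g' → H.Adj (ψ g) (ψ g')) * cd A ψ W' ≤
      ∑ i, cP A (Aset i) (base i) S W := by
    intro ψ
    by_cases hψ : ∀ g g', A.Adj g g' → H.Adj (ψ g) (ψ g')
    · rw [ind_true hψ, one_mul]
      obtain ⟨i, hi⟩ := cover ψ hψ
      refine le_trans ?_ (Finset.single_le_sum (fun i _ => hnn i) (Finset.mem_univ i))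
      refine avg_mono fun y => ind_mono fun h => ?_
      constructor
      · rintro g hg ⟨g', hadj⟩
        rw [← (hi g hg).1]
        refine (h g g' hadj).1 ?_
        rw [(hi g hg).1]
        exact (hi g hg).2
      · intro g hg g' hg' hadj
        have := (h g g' hadj).2.2
        rw [(hi g hg).1, (hi g' hg').1] at this
        exact this (hi g hg).2 (hi g' hg').2
    · rw [ind_false hψ, zero_mul]
      exact Finset.sum_nonneg fun i _ => hnn i
  calc ∑ ψ : α → β, ind (∀ g g', A.Adj g g' → H.Adj (ψ g) (ψ g')) * cd A ψ W'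
      ≤ ∑ _ψ : α → β, ∑ i, cP A (Aset i) (base i) S W := Finset.sum_le_sum fun ψ _ => h2 ψ
    _ = _ := by
      rw [Finset.sum_const, Finset.card_univ, nsmul_eq_mul]

end col

section restr

variable {α β ι : Type} [Fintype α] [DecidableEq α] [Fintype β] [DecidableEq β]
  [Fintype ι] [DecidableEq ι]

/-- The edges of `H` inside `U`. -/
def restr (H : SimpleGraph β) (U : Finset β) : SimpleGraph β where
  Adj u v := H.Adj u v ∧ u ∈ U ∧ v ∈ U
  symm := ⟨fun _ _ h => ⟨h.1.symm, h.2.2, h.2.1⟩⟩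
  loopless := ⟨fun _ h => H.loopless.irrefl _ h.1⟩

/-- Domination of a bounded part of `H`. -/
theorem dom_restr [Nonempty β] {A : SimpleGraph α} {H : SimpleGraph β} {X U : Finset β} {M : ℕ}
    {Aset : ι → Finset α} {base : ι → α → β} {r : ι → Fin M → α → β} (hd : Dom A H)
    (hom : ∀ i j g g', A.Adj g g' → H.Adj (r i j g) (r i j g'))
    (agree : ∀ i j, ∀ g ∈ Aset i, r i j g = base i g)
    (outX : ∀ i j, ∀ g ∉ Aset i, r i j g ∉ X)
    (disj : ∀ i j j', j ≠ j' → ∀ g ∉ Aset i, ∀ g' ∉ Aset i, r i j g ≠ r i j' g')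
    (hM : 2 ^ Fintype.card α * Fintype.card ι ≤ M)
    (cover : ∀ ψ : α → β, (∀ g g', A.Adj g g' → H.Adj (ψ g) (ψ g')) →
      ∃ i, ∀ g ∈ Aset i, ψ g = base i g ∧ base i g ∈ X)
    (hXU : X ⊆ U) (hrU : ∀ i j g, r i j g ∈ U) : Dom A (restr H U) := by
  intro k G
  set c : ℝ := (Fintype.card (β → β) : ℝ) * (Fintype.card (α → β) : ℝ) with hc
  have hc0 : 0 ≤ c := by positivity
  refine pow_trick (c := c * ((Fintype.card (ι → Fin M) : ℝ) * (Fintype.card ι : ℝ)))
    (t_nonneg _ _) fun m => ?_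
  set W : β → β → Fin (k + 1) → Fin (k + 1) → Prop := fun _ _ x y => G.Adj x y with hW
  have h1 : t (restr H U) G = cd (restr H U) id W := rfl
  have h2 : ∀ φ : α → β, t A G = cd A φ W := fun φ => rfl
  have hsym : ∀ u v x y, Wpow W m u v x y → Wpow W m v u y x := by
    intro u v x y h i
    exact (h i).symm
  have h3 := core (A := A) (H := restr H U) (X := X) (Aset := Aset) (base := base) (r := r)
    (Wpow W m) hsym (fun i j g g' hadj => ⟨hom i j g g' hadj, hrU i j g, hrU i j g'⟩) agree outX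
    disj hM c hc0 (fun S => by
      have h4 := core_of_dom hd X Aset base cover (Wpow W m) hsym S
      refine le_trans (le_of_eq ?_) h4
      rw [cX, cX]
      congr 1
      ext x
      apply ind_congr
      constructor
      · rintro ⟨ha, hb⟩
        exact ⟨ha, fun u hu v hv hadj => hb u hu v hv ⟨hadj, hXU hu, hXU hv⟩⟩
      · rintro ⟨ha, hb⟩
        exact ⟨ha, fun u hu v hv hadj => hb u hu v hv hadj.1⟩)
  rw [cd_pow, ← h1] at h3
  refine h3.trans (le_of_eq ?_)
  have h5 : ∀ (k : ι → Fin M) (i : ι), cd A (r i (k i)) (Wpow W m) = t A G ^ m := by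
    intro k i
    rw [cd_pow, ← h2]
  simp only [h5, Finset.sum_const, Finset.card_univ, nsmul_eq_mul]
  ring

end restr

end Pool.Agent.BHD
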