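import Pool.Agent.BHD.Basis

/-!
# Edge counts: subgraphs with a given number of edges, and the necessary condition `e(A) ≤ e(B)`
-/

set_option autoImplicit false

namespace Pool.Agent.BHD

open Finset

section sub

variable {α β γ : Type} [Fintype α] [DecidableEq α] [Fintype β] [DecidableEq β] [Fintype γ]
  [DecidableEq γ]

/-- The number of edges. -/
noncomputable def ec {V : Type} (G : SimpleGraph V) : ℕ := G.edgeSet.ncard

omit [Fintype γ] [DecidableEq γ] [DecidableEq β] in
theorem Sub.ec_le {C : SimpleGraph γ} {B : SimpleGraph β} (h : Sub C B) : ec C ≤ ec B := by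
  obtain ⟨f, hf, hCB⟩ := h
  have h1 : Sym2.map f '' C.edgeSet ⊆ B.edgeSet := by
    rintro _ ⟨e, he, rfl⟩
    induction e using Sym2.ind with
    | _ a b => exact hCB a b he
  rw [ec, ec, ← Set.ncard_image_of_injective _ (Sym2.map.injective hf)]
  exact Set.ncard_le_ncard h1 (Set.toFinite _)

/-- A subgraph with all the edges has the same densities. -/
theorem t_eq_of_ec {C : SimpleGraph γ} {B : SimpleGraph β} (h : Sub C B) (he : ec B ≤ ec C) (k : ℕ)
    (G : SimpleGraph (Fin (k + 1))) : t B G = t C G := by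
  obtain ⟨f, hf, hCB⟩ := h
  have h1 : Sym2.map f '' C.edgeSet ⊆ B.edgeSet := by
    rintro _ ⟨e, he, rfl⟩
    induction e using Sym2.ind with
    | _ a b => exact hCB a b he
  have h2 : Sym2.map f '' C.edgeSet = B.edgeSet := by
    refine Set.eq_of_subset_of_ncard_le h1 ?_ (Set.toFinite _)
    rw [Set.ncard_image_of_injective _ (Sym2.map.injective hf)]
    exact he
  refine t_eq_sub C B f hf hCB ?_ G
  intro u v huv
  have h3 : s(u, v) ∈ Sym2.map f '' C.edgeSet := by
    rw [h2]
    exact huv
  obtain ⟨e, he', heq⟩ := h3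
  induction e using Sym2.ind with
  | _ a b =>
    rw [Sym2.map_mk] at heq
    rcases Sym2.eq_iff.1 heq with ⟨h4, h5⟩ | ⟨h4, h5⟩
    · exact ⟨a, b, he', h4, h5⟩
    · exact ⟨b, a, (C.mem_edgeSet.1 he').symm, h5, h4⟩

/-- Subgraphs with exactly `k` edges on few vertices. -/
theorem exists_sub_ec (B : SimpleGraph β) (k : ℕ) (hk : k ≤ ec B) :
    ∃ j, j ≤ 2 * k ∧ ∃ C : SimpleGraph (Fin j), Sub C B ∧ ec C = k := by
  classical
  have h1 : k ≤ B.edgeFinset.card := by
    rw [ec, Set.ncard_eq_toFinset_card'] at hk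
    exact hk
  obtain ⟨F, hF, hFk⟩ := Finset.exists_subset_card_eq h1
  set U : Finset β := F.biUnion fun e => e.toFinset with hU
  have hUcard : U.card ≤ 2 * k := by
    refine Finset.card_biUnion_le.trans ?_
    calc ∑ e ∈ F, e.toFinset.card ≤ ∑ _e ∈ F, 2 := by
          refine Finset.sum_le_sum fun e _ => ?_
          rw [Sym2.card_toFinset]
          split_ifs <;> norm_num
      _ = 2 * k := by rw [Finset.sum_const, hFk, smul_eq_mul, mul_comm]
  obtain ⟨e⟩ : Nonempty (Fin U.card ≃ U) := ⟨U.equivFin.symm⟩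
  let f : Fin U.card → β := fun i => (e i : β)
  have hf : Function.Injective f := fun i j hij => e.injective (Subtype.ext hij)
  have hfU : ∀ u ∈ U, ∃ i, f i = u := fun u hu => ⟨e.symm ⟨u, hu⟩, by simp [f]⟩
  let C' : SimpleGraph β := SimpleGraph.fromEdgeSet (F : Set (Sym2 β))
  have hC' : C'.edgeSet = (F : Set (Sym2 β)) := by
    rw [SimpleGraph.edgeSet_fromEdgeSet]
    ext z
    simp only [Set.mem_sdiff]
    constructor
    · exact fun h => h.1
    · intro h
      exact ⟨h, B.not_isDiag_of_mem_edgeFinset (hF h)⟩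
  refine ⟨U.card, hUcard, C'.comap f, ⟨f, hf, ?_⟩, ?_⟩
  · intro a b hab
    have h2 : s(f a, f b) ∈ C'.edgeSet := hab
    rw [hC'] at h2
    exact SimpleGraph.mem_edgeFinset.1 (hF h2)
  · have h3 : Sym2.map f '' (C'.comap f).edgeSet = (F : Set (Sym2 β)) := by
      rw [← hC']
      ext z
      constructor
      · rintro ⟨w, hw, rfl⟩
        induction w using Sym2.ind with
        | _ a b => exact hw
      · intro hz
        induction z using Sym2.ind with
        | _ u v =>
          have hzF : s(u, v) ∈ F := by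
            have := hz
            rw [hC'] at this
            exact this
          have hu : u ∈ U := Finset.mem_biUnion.2 ⟨_, hzF, by simp⟩
          have hv : v ∈ U := Finset.mem_biUnion.2 ⟨_, hzF, by simp⟩
          obtain ⟨a, rfl⟩ := hfU u hu
          obtain ⟨b, rfl⟩ := hfU v hv
          exact ⟨s(a, b), hz, by rw [Sym2.map_mk]⟩
    rw [ec, ← Set.ncard_image_of_injective _ (Sym2.map.injective hf), h3, Set.ncard_coe_finset, hFk]

end sub

end Pool.Agent.BHD
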