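import Pool.Agent.BHD.Edge

/-!
# The necessary condition `e(A) ≤ e(B)`, from the densities of complete graphs
-/

set_option autoImplicit false

namespace Pool.Agent.BHD

open Finset

section eb

variable {α : Type} [Fintype α] [DecidableEq α]

/-- The edge `e` is monochromatic. -/
def bad {N : ℕ} (f : α → Fin (N + 1)) (e : Sym2 α) : Prop := f (Quot.out e).1 = f (Quot.out e).2

theorem avg_eq_const {N : ℕ} (c : Fin (N + 1)) :
    (avg fun x : Fin (N + 1) => ind (x = c)) = 1 / ((N : ℝ) + 1) := by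
  rw [avg, Finset.sum_eq_single c]
  · rw [ind_true rfl, Fintype.card_fin]
    push_cast
    rfl
  · intro b _ hb
    exact ind_false hb
  · intro h
    exact absurd (Finset.mem_univ c) h

omit [Fintype α] [DecidableEq α] in
theorem out_eq (e : Sym2 α) : s((Quot.out e).1, (Quot.out e).2) = e := Quot.out_eq e

omit [Fintype α] [DecidableEq α] in
theorem out_ne {A : SimpleGraph α} {e : Sym2 α} (he : e ∈ A.edgeSet) :
    (Quot.out e).1 ≠ (Quot.out e).2 := by
  rw [← out_eq e, SimpleGraph.mem_edgeSet] at he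
  exact he.ne

theorem p1 {N : ℕ} {A : SimpleGraph α} {e : Sym2 α} (he : e ∈ A.edgeSet) :
    (avg fun f : α → Fin (N + 1) => ind (bad f e)) = 1 / ((N : ℝ) + 1) := by
  have hne := out_ne he
  rw [← avg_update (Quot.out e).1 (fun f : α → Fin (N + 1) => ind (bad f e))]
  have h1 : ∀ (f : α → Fin (N + 1)) (x : Fin (N + 1)),
      ind (bad (Function.update f (Quot.out e).1 x) e) = ind (x = f (Quot.out e).2) := by
    intro f x
    rw [bad, Function.update_self, Function.update_of_ne hne.symm]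
  simp only [h1, avg_eq_const, avg_const]

theorem p2 {N : ℕ} {A : SimpleGraph α} {e e' : Sym2 α} (he : e ∈ A.edgeSet) (he' : e' ∈ A.edgeSet)
    (hee : e ≠ e') : (avg fun f : α → Fin (N + 1) => ind (bad f e) * ind (bad f e')) =
      1 / ((N : ℝ) + 1) * (1 / ((N : ℝ) + 1)) := by
  have hne := out_ne he
  have hne' := out_ne he'
  have h0 : ((Quot.out e').1 ≠ (Quot.out e).1 ∧ (Quot.out e').1 ≠ (Quot.out e).2) ∨
      ((Quot.out e').2 ≠ (Quot.out e).1 ∧ (Quot.out e').2 ≠ (Quot.out e).2) := by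
    by_contra hcon
    rw [not_or, not_and_or, not_and_or, not_not, not_not, not_not, not_not] at hcon
    apply hee
    rw [← out_eq e, ← out_eq e', Sym2.eq_iff]
    rcases hcon with ⟨h1 | h1, h2 | h2⟩
    · exact absurd (h1.trans h2.symm) hne'
    · exact Or.inl ⟨h1.symm, h2.symm⟩
    · exact Or.inr ⟨h2.symm, h1.symm⟩
    · exact absurd (h1.trans h2.symm) hne'
  rcases h0 with ⟨h1, h2⟩ | ⟨h1, h2⟩
  · rw [← avg_update (Quot.out e').1 (fun f : α → Fin (N + 1) => ind (bad f e) * ind (bad f e'))]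
    have h3 : ∀ (f : α → Fin (N + 1)) (x : Fin (N + 1)),
        ind (bad (Function.update f (Quot.out e').1 x) e) *
          ind (bad (Function.update f (Quot.out e').1 x) e') =
          ind (bad f e) * ind (x = f (Quot.out e').2) := by
      intro f x
      rw [bad, bad, Function.update_self, Function.update_of_ne hne'.symm,
        Function.update_of_ne h1.symm, Function.update_of_ne h2.symm]
      rfl
    simp only [h3, avg_mul_left, avg_eq_const]
    simp only [mul_comm _ (1 / ((N : ℝ) + 1)), avg_mul_left, p1 he]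
  · rw [← avg_update (Quot.out e').2 (fun f : α → Fin (N + 1) => ind (bad f e) * ind (bad f e'))]
    have h3 : ∀ (f : α → Fin (N + 1)) (x : Fin (N + 1)),
        ind (bad (Function.update f (Quot.out e').2 x) e) *
          ind (bad (Function.update f (Quot.out e').2 x) e') =
          ind (bad f e) * ind (x = f (Quot.out e').1) := by
      intro f x
      rw [bad, bad, Function.update_self, Function.update_of_ne hne',
        Function.update_of_ne h1.symm, Function.update_of_ne h2.symm]
      congr 1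
      exact ind_congr eq_comm
    simp only [h3, avg_mul_left, avg_eq_const]
    simp only [mul_comm _ (1 / ((N : ℝ) + 1)), avg_mul_left, p1 he]

variable (A : SimpleGraph α)

open Classical in
theorem hom_top_iff {N : ℕ} (f : α → Fin (N + 1)) :
    (∀ i j, A.Adj i j → (⊤ : SimpleGraph (Fin (N + 1))).Adj (f i) (f j)) ↔
      ∀ e ∈ A.edgeFinset, ¬ bad f e := by
  constructor
  · intro h e he
    rw [SimpleGraph.mem_edgeFinset, ← out_eq e, SimpleGraph.mem_edgeSet] at he
    exact h _ _ he
  · intro h i j hij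
    have h1 := h s(i, j) (SimpleGraph.mem_edgeFinset.2 hij)
    rw [SimpleGraph.top_adj]
    intro h2
    apply h1
    rw [bad]
    rcases Sym2.eq_iff.1 (out_eq s(i, j)) with ⟨h3, h4⟩ | ⟨h3, h4⟩
    · rw [h3, h4, h2]
    · rw [h3, h4, h2]

open Classical in
theorem t_top_lower (N : ℕ) :
    1 - (ec A : ℝ) * (1 / ((N : ℝ) + 1)) ≤ t A (⊤ : SimpleGraph (Fin (N + 1))) := by
  have hE : ec A = A.edgeFinset.card := by rw [ec, Set.ncard_eq_toFinset_card']; rfl
  have h1 : ∀ f : α → Fin (N + 1), 1 + (-1) * ∑ e ∈ A.edgeFinset, ind (bad f e) ≤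
      ind (∀ i j, A.Adj i j → (⊤ : SimpleGraph (Fin (N + 1))).Adj (f i) (f j)) := by
    intro f
    rw [ind_congr (hom_top_iff A f)]
    by_cases h : ∀ e ∈ A.edgeFinset, ¬ bad f e
    · rw [ind_true h]
      have : 0 ≤ ∑ e ∈ A.edgeFinset, ind (bad f e) := Finset.sum_nonneg fun e _ => ind_nonneg _
      linarith
    · rw [ind_false h]
      push Not at h
      obtain ⟨e, he, hb⟩ := h
      have : ind (bad f e) ≤ ∑ e ∈ A.edgeFinset, ind (bad f e) :=
        Finset.single_le_sum (f := fun e => ind (bad f e)) (fun e _ => ind_nonneg _) he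
      rw [ind_true hb] at this
      linarith
  refine le_trans (le_of_eq ?_) (avg_mono h1)
  have h2 : (avg fun f : α → Fin (N + 1) => 1 + (-1) * ∑ e ∈ A.edgeFinset, ind (bad f e)) =
      (avg fun _ : α → Fin (N + 1) => (1 : ℝ)) +
      avg fun f : α → Fin (N + 1) => (-1) * ∑ e ∈ A.edgeFinset, ind (bad f e) := by
    rw [avg, avg, avg, Finset.sum_add_distrib, add_div]
  rw [h2, avg_const, avg_mul_left, avg_sum, Finset.sum_congr rfl fun e he =>
    p1 (A := A) (SimpleGraph.mem_edgeFinset.1 he), Finset.sum_const, ← hE, nsmul_eq_mul]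
  ring

open Classical in
theorem t_top_upper (N : ℕ) :
    t A (⊤ : SimpleGraph (Fin (N + 1))) ≤ 1 - (ec A : ℝ) * (1 / ((N : ℝ) + 1)) +
      (ec A : ℝ) ^ 2 * (1 / ((N : ℝ) + 1)) ^ 2 := by
  have hE : ec A = A.edgeFinset.card := by rw [ec, Set.ncard_eq_toFinset_card']; rfl
  set x : ℝ := 1 / ((N : ℝ) + 1) with hx
  have hx0 : 0 ≤ x := by positivity
  have h1 : ∀ f : α → Fin (N + 1),
      ind (∀ i j, A.Adj i j → (⊤ : SimpleGraph (Fin (N + 1))).Adj (f i) (f j)) ≤
      1 + (-2) * ∑ e ∈ A.edgeFinset, ind (bad f e) +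
        ∑ e ∈ A.edgeFinset, ∑ e' ∈ A.edgeFinset, ind (bad f e) * ind (bad f e') := by
    intro f
    rw [ind_congr (hom_top_iff A f)]
    have h2 : ∑ e ∈ A.edgeFinset, ∑ e' ∈ A.edgeFinset, ind (bad f e) * ind (bad f e') =
        (∑ e ∈ A.edgeFinset, ind (bad f e)) * (∑ e ∈ A.edgeFinset, ind (bad f e)) := by
      rw [Finset.sum_mul_sum]
    rw [h2]
    by_cases h : ∀ e ∈ A.edgeFinset, ¬ bad f e
    · rw [ind_true h, Finset.sum_eq_zero fun e he => ind_false (h e he)]
      norm_num
    · rw [ind_false h]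
      nlinarith [sq_nonneg (1 - ∑ e ∈ A.edgeFinset, ind (bad f e))]
  refine (avg_mono h1).trans ?_
  have h3 : (avg fun f : α → Fin (N + 1) => 1 + (-2) * ∑ e ∈ A.edgeFinset, ind (bad f e) +
        ∑ e ∈ A.edgeFinset, ∑ e' ∈ A.edgeFinset, ind (bad f e) * ind (bad f e')) =
      (avg fun _ : α → Fin (N + 1) => (1 : ℝ)) +
      (avg fun f : α → Fin (N + 1) => (-2) * ∑ e ∈ A.edgeFinset, ind (bad f e)) +
      avg fun f : α → Fin (N + 1) => ∑ e ∈ A.edgeFinset, ∑ e' ∈ A.edgeFinset,
        ind (bad f e) * ind (bad f e') := by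
    rw [avg, avg, avg, avg, Finset.sum_add_distrib, Finset.sum_add_distrib, add_div, add_div]
  rw [h3, avg_const, avg_mul_left, avg_sum, avg_sum, Finset.sum_congr rfl fun e he =>
    p1 (A := A) (SimpleGraph.mem_edgeFinset.1 he), Finset.sum_const, ← hE, nsmul_eq_mul]
  have h4 : ∀ e ∈ A.edgeFinset, (avg fun f : α → Fin (N + 1) => ∑ e' ∈ A.edgeFinset,
      ind (bad f e) * ind (bad f e')) ≤ x + (ec A : ℝ) * x ^ 2 := by
    intro e he
    rw [avg_sum]
    have h5 : ∀ e' ∈ A.edgeFinset, (avg fun f : α → Fin (N + 1) => ind (bad f e) * ind (bad f e')) ≤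
        (if e' = e then x else 0) + x ^ 2 := by
      intro e' he'
      by_cases hee : e' = e
      · subst hee
        rw [if_pos rfl]
        have h6 : ∀ f : α → Fin (N + 1), ind (bad f e') * ind (bad f e') = ind (bad f e') := by
          intro f
          rw [← ind_and, and_self]
        simp only [h6]
        rw [p1 (A := A) (SimpleGraph.mem_edgeFinset.1 he)]
        have : 0 ≤ x ^ 2 := by positivity
        linarith
      · rw [if_neg hee, p2 (A := A) (SimpleGraph.mem_edgeFinset.1 he)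
          (SimpleGraph.mem_edgeFinset.1 he') (fun h => hee h.symm)]
        rw [← hx]
        ring_nf
        exact le_rfl
    refine (Finset.sum_le_sum h5).trans (le_of_eq ?_)
    rw [Finset.sum_add_distrib, Finset.sum_ite_eq' , if_pos he, Finset.sum_const, ← hE,
      nsmul_eq_mul]
  have h7 := Finset.sum_le_sum h4
  rw [Finset.sum_const, ← hE, nsmul_eq_mul] at h7
  rw [← hx]
  nlinarith [h7]

theorem Dom.ec_le {β : Type} [Fintype β] [DecidableEq β] {A : SimpleGraph α} {B : SimpleGraph β}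
    (h : Dom A B) : ec A ≤ ec B := by
  by_contra hcon
  push Not at hcon
  have h1 : (ec B : ℝ) + 1 ≤ ec A := by exact_mod_cast hcon
  set N : ℕ := (ec A) ^ 2 with hN
  have h2 := (t_top_lower B N).trans ((h N ⊤).trans (t_top_upper A N))
  set x : ℝ := 1 / ((N : ℝ) + 1) with hx
  have hN1 : (0 : ℝ) < (N : ℝ) + 1 := by positivity
  have hx0 : 0 < x := by positivity
  have hx1 : (ec A : ℝ) ^ 2 * x < 1 := by
    rw [hx, mul_one_div, div_lt_one hN1, hN]
    push_cast
    linarith
  have h3 : ((ec A : ℝ) - ec B) * x ≤ (ec A : ℝ) ^ 2 * x * x := by nlinarith [h2]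
  have h4 : (ec A : ℝ) - ec B ≤ (ec A : ℝ) ^ 2 * x := le_of_mul_le_mul_right h3 hx0
  linarith

end eb

end Pool.Agent.BHD
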