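import Pool.Agent.BHD.Comp

/-!
# Final statements
-/

set_option autoImplicit false

namespace Pool.Agent.BHD

open Finset

theorem t_filter {n k : ℕ} (A : SimpleGraph (Fin n)) (H : SimpleGraph (Fin (k + 1)))
    [DecidablePred fun f : Fin n → Fin (k + 1) => ∀ i j : Fin n, A.Adj i j → H.Adj (f i) (f j)] :
    t A H = ((Finset.univ.filter (fun f : Fin n → Fin (k + 1) =>
      ∀ i j : Fin n, A.Adj i j → H.Adj (f i) (f j))).card : ℝ) / (((k + 1 : ℕ) : ℝ) ^ n) := by
  rw [t, avg, Fintype.card_fun, Fintype.card_fin, Fintype.card_fin, Nat.cast_pow]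
  congr 1
  rw [Finset.card_filter, Nat.cast_sum]
  refine Finset.sum_congr rfl fun x _ => ?_
  by_cases h : ∀ i j : Fin n, A.Adj i j → H.Adj (x i) (x j)
  · rw [ind_true h, if_pos h, Nat.cast_one]
  · rw [ind_false h, if_neg h, Nat.cast_zero]

theorem t_hom {n k : ℕ} (A : SimpleGraph (Fin n)) (H : SimpleGraph (Fin (k + 1))) :
    t A H = (Nat.card (A →g H) : ℝ) / (((k + 1 : ℕ) : ℝ) ^ n) := by
  classical
  rw [t_filter]
  congr 2
  have e : (A →g H) ≃ {f : Fin n → Fin (k + 1) // ∀ i j : Fin n, A.Adj i j → H.Adj (f i) (f j)} :=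
    { toFun := fun f => ⟨f, fun _ _ h => f.map_rel h⟩
      invFun := fun f => ⟨f.1, fun h => f.2 _ _ h⟩
      left_inv := fun _ => rfl
      right_inv := fun _ => rfl }
  rw [Nat.card_congr e, Nat.card_eq_fintype_card, Fintype.card_subtype]

theorem oneGraph (n : ℕ) :
    ComputablePred fun p : (ℕ × List (ℕ × ℕ)) × (ℕ × List (ℕ × ℕ)) =>
      (ec (gr p.1) ≤ n ∨ ec (gr p.2) ≤ n) ∧ Dom (gr p.1) (gr p.2) := by
  obtain ⟨p0, hp⟩ := exists_cst
  exact ((partA hp n).or (partB' n)).computablePred.of_eq fun p => by tauto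

theorem coreB_mono (p0 : ℕ) {n n' : ℕ} (h : n ≤ n') : coreB p0 n ≤ coreB p0 n' :=
  ack_le_ack (by omega) (by omega)

theorem partB_mono (p0 : ℕ) {n n' : ℕ} (h : n ≤ n') : partB p0 n ≤ partB p0 n' := by
  rw [partB, partB]
  have h1 := coreB_mono p0 h
  gcongr
  · exact Nat.le_add_left 1 _
  · norm_num
  · exact Nat.le_add_left 1 _

theorem primrec_pow : Primrec₂ fun a b : ℕ => a ^ b := by
  have : Primrec₂ fun (a b : ℕ) => Nat.rec (motive := fun _ => ℕ) 1 (fun _ z => z * a) b := by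
    refine Primrec.nat_rec' (f := fun z : ℕ × ℕ => z.2) (g := fun _ => 1)
      (h := fun z w => w.2 * z.1) Primrec.snd (Primrec.const 1) ?_
    exact Primrec.nat_mul.comp (Primrec.snd.comp Primrec.snd) (Primrec.fst.comp Primrec.fst)
  refine this.of_eq fun a b => ?_
  induction b with
  | zero => simp
  | succ b ih => rw [pow_succ, ← ih]

theorem computable_partB (p0 : ℕ) : Computable fun e : ℕ => partB p0 (2 * e) := by
  have h1 : Primrec₂ fun B n : ℕ => B + (B + 1) ^ n * (2 ^ n * (B + 1) ^ n * n) := by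
    have hB : Primrec fun z : ℕ × ℕ => z.1 := Primrec.fst
    have hn : Primrec fun z : ℕ × ℕ => z.2 := Primrec.snd
    have hp : Primrec fun z : ℕ × ℕ => (z.1 + 1) ^ z.2 := primrec_pow.comp (Primrec.succ.comp hB) hn
    have h2 : Primrec fun z : ℕ × ℕ => 2 ^ z.2 := primrec_pow.comp (Primrec.const 2) hn
    exact Primrec.nat_add.comp hB (Primrec.nat_mul.comp hp
      (Primrec.nat_mul.comp (Primrec.nat_mul.comp h2 hp) hn))
  have h2 : Primrec fun e : ℕ => 2 * e := Primrec.nat_mul.comp (Primrec.const 2) Primrec.id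
  have h3 : Computable fun e : ℕ => coreB p0 (2 * e) := by
    have h4 : Primrec fun e : ℕ => p0 + 11 * (2 * e) :=
      Primrec.nat_add.comp (Primrec.const p0) (Primrec.nat_mul.comp (Primrec.const 11) h2)
    have h5 : Primrec fun e : ℕ => 2 * e + 1 := Primrec.succ.comp h2
    exact computable₂_ack.comp h4.to_comp h5.to_comp
  exact h1.to_comp.comp h3 h2.to_comp

/-- The finite basis theorem in terms of the number of edges. -/
theorem basis_ec {p0 : ℕ} (hp : Cst p0) {n m : ℕ} (A : SimpleGraph (Fin n))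
    (H : SimpleGraph (Fin m)) :
    Dom A H ↔ ∃ j ≤ partB p0 (2 * ec A), ∃ C : SimpleGraph (Fin j), Sub C H ∧ Dom A C := by
  constructor
  · intro h
    obtain ⟨j, hj, Γ, hΓ, hec⟩ := exists_sub_ec A (ec A) le_rfl
    have h4 : Dom Γ H := by
      intro k G
      rw [← t_eq_of_ec hΓ hec.ge k G]
      exact h k G
    obtain ⟨j', hj', C, hC1, hC2⟩ := (basis hp Γ _ _).1 h4
    rw [Fintype.card_fin] at hj'
    refine ⟨j', hj'.trans (partB_mono p0 hj), C, hC1, ?_⟩
    intro k G
    rw [t_eq_of_ec hΓ hec.ge k G]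
    exact hC2 k G
  · rintro ⟨j, -, C, ⟨f, hf, hCH⟩, hd⟩
    exact hd.mono_right f hf hCH

end Pool.Agent.BHD
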