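import Pool.Agent.BHD.Dens

/-!
# Bounded cores with rich patterns, and the bounded part of a dominated graph
-/

set_option autoImplicit false

namespace Pool.Agent.BHD

open Finset Filter

section rich

variable {α β : Type}

/-- `ψ` is a homomorphism. -/
def IsHom (A : SimpleGraph α) (H : SimpleGraph β) (ψ : α → β) : Prop :=
  ∀ g g', A.Adj g g' → H.Adj (ψ g) (ψ g')

/-- There are `m` homs that agree with `a` on `S`, whose other values are outside `X` and
pairwise different. -/
def Rich (A : SimpleGraph α) (H : SimpleGraph β) (X : Finset β) (S : Finset α) (a : α → β)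
    (m : ℕ) : Prop :=
  ∃ r : Fin m → α → β, (∀ j, IsHom A H (r j)) ∧ (∀ j, ∀ g ∈ S, r j g = a g) ∧
    (∀ j, ∀ g ∉ S, r j g ∉ X) ∧ ∀ j j', j ≠ j' → ∀ g ∉ S, ∀ g' ∉ S, r j g ≠ r j' g'

/-- Every hom extending `a|S` has a rich restriction. -/
def CovS (A : SimpleGraph α) (H : SimpleGraph β) (X : Finset β) (S : Finset α) (a : α → β)
    (m : ℕ) : Prop :=
  ∀ ψ, IsHom A H ψ → (∀ g ∈ S, ψ g = a g) →
    ∃ S', S ⊆ S' ∧ (∀ g ∈ S', ψ g ∈ X) ∧ Rich A H X S' ψ m

variable {A : SimpleGraph α} {H : SimpleGraph β} {X X' : Finset β} {S : Finset α} {a a' : α → β}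
  {m m' : ℕ}

theorem rich_congr (h : Rich A H X S a m) (haa : ∀ g ∈ S, a g = a' g) : Rich A H X S a' m := by
  obtain ⟨r, h1, h2, h3, h4⟩ := h
  exact ⟨r, h1, fun j g hg => (h2 j g hg).trans (haa g hg), h3, h4⟩

theorem rich_mono (h : Rich A H X S a m) (hm : m' + X'.card ≤ m) : Rich A H X' S a m' := by
  classical
  obtain ⟨r, h1, h2, h3, h4⟩ := h
  set bad : Finset (Fin m) := Finset.univ.filter fun j => ∃ g, g ∉ S ∧ r j g ∈ X' with hbad
  have hch : ∀ j : bad, ∃ g, g ∉ S ∧ r j g ∈ X' := fun j => (Finset.mem_filter.1 j.2).2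
  choose gf hgf using hch
  have hcard : bad.card ≤ X'.card := by
    have hinj : Function.Injective (fun j : bad => (⟨r j (gf j), (hgf j).2⟩ : X')) := by
      intro j j' hjj'
      by_contra hne
      have h5 : (j : Fin m) ≠ j' := fun h => hne (Subtype.ext h)
      exact h4 j j' h5 (gf j) (hgf j).1 (gf j') (hgf j').1 (Subtype.ext_iff.1 hjj')
    have := Fintype.card_le_of_injective _ hinj
    rwa [Fintype.card_coe, Fintype.card_coe] at this
  have hgood : m' ≤ badᶜ.card := by
    rw [Finset.card_compl, Fintype.card_fin]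
    omega
  let e : Fin m' ↪o Fin m := (badᶜ).orderEmbOfCardLe hgood
  have he : ∀ i, e i ∉ bad := fun i =>
    Finset.mem_compl.1 (Finset.orderEmbOfCardLe_mem _ hgood i)
  refine ⟨fun i => r (e i), fun i => h1 _, fun i => h2 _, ?_, ?_⟩
  · intro i g hg hgX
    exact he i (Finset.mem_filter.2 ⟨Finset.mem_univ _, g, hg, hgX⟩)
  · intro i i' hii'
    exact h4 _ _ fun h => hii' (e.injective h)

theorem rich_le (h : Rich A H X S a m) (hm : m' ≤ m) : Rich A H X S a m' := by
  obtain ⟨r, h1, h2, h3, h4⟩ := h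
  refine ⟨fun i => r (Fin.castLE hm i), fun i => h1 _, fun i => h2 _, fun i => h3 _, ?_⟩
  intro i i' hii'
  exact h4 _ _ fun h => hii' (Fin.castLE_injective hm h)

variable [Fintype α]

theorem hit (h : ¬ Rich A H X S a m) : ∃ Y : Finset β, Y.card ≤ m * Fintype.card α ∧
    ∀ ψ, IsHom A H ψ → (∀ g ∈ S, ψ g = a g) → ∃ g, g ∉ S ∧ (ψ g ∈ X ∨ ψ g ∈ Y) := by
  classical
  induction m with
  | zero =>
    exact absurd ⟨fun j => j.elim0, fun j => j.elim0, fun j => j.elim0, fun j => j.elim0,
      fun j => j.elim0⟩ h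
  | succ m ih =>
    by_cases hm : Rich A H X S a m
    · obtain ⟨r, h1, h2, h3, h4⟩ := hm
      refine ⟨(Finset.univ : Finset (Fin m × α)).image fun z => r z.1 z.2, ?_, ?_⟩
      · refine Finset.card_image_le.trans ?_
        rw [Finset.card_univ, Fintype.card_prod, Fintype.card_fin]
        exact Nat.mul_le_mul_right _ (Nat.le_succ m)
      · intro ψ hψ hψa
        by_contra hcon
        push Not at hcon
        apply h
        have hY : ∀ (j : Fin m) (g g' : α), g' ∉ S → r j g ≠ ψ g' := by
          intro j g g' hg' heq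
          exact (hcon g' hg').2 (Finset.mem_image.2 ⟨(j, g), Finset.mem_univ _, heq⟩)
        refine ⟨Fin.cases ψ r, ?_, ?_, ?_, ?_⟩
        · intro j
          refine Fin.cases hψ (fun j => ?_) j
          exact h1 j
        · intro j
          refine Fin.cases hψa (fun j => ?_) j
          exact h2 j
        · intro j
          refine Fin.cases (fun g hg => (hcon g hg).1) (fun j => ?_) j
          exact h3 j
        · intro j j'
          refine Fin.cases ?_ (fun j => ?_) j
          · refine Fin.cases (fun h => absurd rfl h) (fun j' => ?_) j'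
            intro _ g hg g' _ heq
            exact hY j' g' g hg heq.symm
          · refine Fin.cases ?_ (fun j' => ?_) j'
            · intro _ g _ g' hg' heq
              exact hY j g g' hg' heq
            · intro hne g hg g' hg'
              exact h4 j j' (fun h => hne (by rw [h])) g hg g' hg'
    · obtain ⟨Y, hY, hY'⟩ := ih hm
      exact ⟨Y, hY.trans (Nat.mul_le_mul_right _ (Nat.le_succ m)), hY'⟩

end rich

section bounds

/-- The constants for the bounds. -/
structure Cst (p0 : ℕ) : Prop where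
  big : ∀ y, 2 ^ y * (y + 1) ^ y + y < ack p0 y
  pol : ∀ m, (m + 1) ^ 6 < ack p0 m

theorem exists_cst : ∃ p0, Cst p0 := by
  have h1 : Nat.Primrec fun y => 2 ^ y * (y + 1) ^ y + y := by
    rw [← Primrec.nat_iff]
    have hpow : Primrec₂ fun a b : ℕ => a ^ b := by
      have : Primrec₂ fun (a b : ℕ) => Nat.rec (motive := fun _ => ℕ) 1 (fun _ z => z * a) b := by
        refine Primrec.nat_rec' (f := fun z : ℕ × ℕ => z.2) (g := fun _ => 1)
          (h := fun z w => w.2 * z.1) Primrec.snd (Primrec.const 1) ?_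
        exact Primrec.nat_mul.comp (Primrec.snd.comp Primrec.snd) (Primrec.fst.comp Primrec.fst)
      refine this.of_eq fun a b => ?_
      induction b with
      | zero => simp
      | succ b ih => rw [pow_succ, ← ih]
    exact Primrec.nat_add.comp (Primrec.nat_mul.comp (hpow.comp (Primrec.const 2) Primrec.id)
      (hpow.comp (Primrec.succ.comp Primrec.id) Primrec.id)) Primrec.id
  have h2 : Nat.Primrec fun m => (m + 1) ^ 6 := by
    rw [← Primrec.nat_iff]
    have hm : Primrec fun m : ℕ => (m + 1) * ((m + 1) * ((m + 1) * ((m + 1) * ((m + 1) * (m + 1))))) := by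
      have hs : Primrec fun m : ℕ => m + 1 := Primrec.succ
      exact Primrec.nat_mul.comp hs (Primrec.nat_mul.comp hs (Primrec.nat_mul.comp hs
        (Primrec.nat_mul.comp hs (Primrec.nat_mul.comp hs hs))))
    exact hm.of_eq fun m => by ring
  obtain ⟨a, ha⟩ := exists_lt_ack_of_nat_primrec h1
  obtain ⟨b, hb⟩ := exists_lt_ack_of_nat_primrec h2
  refine ⟨max a b, fun y => ?_, fun m => ?_⟩
  · exact (ha y).trans_le (ack_le_ack (le_max_left _ _) le_rfl)
  · exact (hb m).trans_le (ack_le_ack (le_max_right _ _) le_rfl)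

variable {p0 : ℕ}

/-- The richness that is needed for a core of size `y`, plus `y`. -/
def gr' (n y : ℕ) : ℕ := 2 ^ n * (y + 1) ^ n + y

theorem gr'_mono (n : ℕ) {y y' : ℕ} (h : y ≤ y') : gr' n y ≤ gr' n y' := by
  rw [gr', gr']
  gcongr

theorem bnd1 (h : Cst p0) {a n m : ℕ} (ha : p0 ≤ a) (hm : n ≤ m) :
    gr' n (ack a ((m + 1) ^ 6)) < ack (a + 4) m := by
  have h1 : n ≤ ack a ((m + 1) ^ 6) := by
    have h2 : m ≤ (m + 1) ^ 6 := (Nat.le_succ m).trans (Nat.le_self_pow (by norm_num) _)
    exact hm.trans (h2.trans (lt_ack_right _ _).le)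
  set y := ack a ((m + 1) ^ 6) with hy
  have h3 : gr' n y ≤ 2 ^ y * (y + 1) ^ y + y := by
    rw [gr']
    gcongr
    · norm_num
    · exact Nat.le_add_left 1 y
  have h4 : y ≤ ack a (ack p0 m) := ack_mono_right a (h.pol m).le
  calc gr' n y ≤ 2 ^ y * (y + 1) ^ y + y := h3
    _ < ack p0 y := h.big y
    _ ≤ ack p0 (ack a (ack p0 m)) := ack_mono_right p0 h4
    _ ≤ ack p0 (ack (max a p0 + 2) m) := ack_mono_right p0 (ack_ack_lt_ack_max_add_two _ _ _).le
    _ < ack (max p0 (max a p0 + 2) + 2) m := ack_ack_lt_ack_max_add_two _ _ _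
    _ = ack (a + 4) m := by
      congr 1
      omega

/-- The scales. -/
def scale (a n x : ℕ) : ℕ → ℕ
  | 0 => x
  | i + 1 => gr' n (ack a ((scale a n x i + 1) ^ 6))

theorem scale_step (a n x i : ℕ) : scale a n x i ≤ scale a n x (i + 1) := by
  have h2 : scale a n x i ≤ (scale a n x i + 1) ^ 6 :=
    (Nat.le_succ _).trans (Nat.le_self_pow (by norm_num) _)
  calc scale a n x i ≤ ack a ((scale a n x i + 1) ^ 6) := h2.trans (lt_ack_right _ _).le
    _ ≤ gr' n (ack a ((scale a n x i + 1) ^ 6)) := Nat.le_add_left _ _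
    _ = scale a n x (i + 1) := rfl

theorem scale_mono (a n x : ℕ) : Monotone (scale a n x) := monotone_nat_of_le_succ (scale_step a n x)

theorem le_scale (a n x i : ℕ) : x ≤ scale a n x i := scale_mono a n x (Nat.zero_le i)

theorem bnd2 (h : Cst p0) {a n x : ℕ} (ha : p0 ≤ a) (hx : n ≤ x) (i : ℕ) :
    scale a n x i ≤ ack (a + 5) (x + i) := by
  induction i with
  | zero => exact (lt_ack_right _ _).le
  | succ i ih =>
    have h1 := bnd1 h ha (hx.trans (le_scale a n x i))
    calc scale a n x (i + 1) ≤ ack (a + 4) (scale a n x i) := h1.le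
      _ ≤ ack (a + 4) (ack (a + 5) (x + i)) := ack_mono_right _ ih
      _ = ack (a + 5) (x + i + 1) := (ack_succ_succ _ _).symm

theorem bnd3 (h : Cst p0) {a n x : ℕ} (ha : p0 ≤ a) (hx : n ≤ x) {i : ℕ} (hi : i ≤ x) :
    ack a ((scale a n x i + 1) ^ 6) ≤ ack (a + 11) x := by
  have h1 : scale a n x i ≤ ack (a + 7) x := by
    calc scale a n x i ≤ ack (a + 5) (x + i) := bnd2 h ha hx i
      _ ≤ ack (a + 5) (ack 2 x) := by
        apply ack_mono_right
        rw [ack_two]
        omega
      _ ≤ ack (max (a + 5) 2 + 2) x := (ack_ack_lt_ack_max_add_two _ _ _).le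
      _ = ack (a + 7) x := by
        congr 1
  calc ack a ((scale a n x i + 1) ^ 6) ≤ ack a (ack p0 (scale a n x i)) :=
        ack_mono_right a (h.pol _).le
    _ ≤ ack a (ack p0 (ack (a + 7) x)) := ack_mono_right a (ack_mono_right p0 h1)
    _ ≤ ack a (ack (max p0 (a + 7) + 2) x) :=
        ack_mono_right a (ack_ack_lt_ack_max_add_two _ _ _).le
    _ ≤ ack (max a (max p0 (a + 7) + 2) + 2) x := (ack_ack_lt_ack_max_add_two _ _ _).le
    _ = ack (a + 11) x := by
      congr 1
      omega

end bounds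

section eff

variable {α β : Type} [Fintype α] [DecidableEq α] [Fintype β] [DecidableEq β]

/-- The structure theorem. -/
theorem struct_aux {p0 : ℕ} (hp : Cst p0) (A : SimpleGraph α) (H : SimpleGraph β) :
    ∀ (d x : ℕ), Fintype.card α ≤ x → ∀ (X0 : Finset β) (Ts : Finset (Finset α × (α → β))),
    X0.card ≤ x → Ts.card ≤ x → (∀ τ ∈ Ts, (τ.1ᶜ).card ≤ d ∧ ∀ g ∈ τ.1, τ.2 g ∈ X0) →
    ∃ X : Finset β, X0 ⊆ X ∧ X.card ≤ ack (p0 + 11 * d) x ∧
      ∀ τ ∈ Ts, CovS A H X τ.1 τ.2 (2 ^ Fintype.card α * (X.card + 1) ^ Fintype.card α) := by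
  classical
  intro d
  induction d with
  | zero =>
    intro x _ X0 Ts hX0 _ hT
    refine ⟨X0, subset_rfl, hX0.trans (lt_ack_right _ _).le, ?_⟩
    rintro ⟨S, a⟩ hτ
    obtain ⟨hS, ha⟩ := hT _ hτ
    have hS' : S = Finset.univ := by
      have h1 : (Sᶜ).card = 0 := Nat.le_zero.1 hS
      rw [Finset.card_eq_zero, ← Finset.compl_univ] at h1
      exact compl_injective h1
    intro ψ hψ hψa
    refine ⟨S, subset_rfl, fun g hg => by rw [hψa g hg]; exact ha g hg, fun _ => ψ, fun _ => hψ,
      fun _ _ _ => rfl, ?_, ?_⟩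
    · intro _ g hg
      exact absurd (hS' ▸ Finset.mem_univ g) hg
    · intro _ _ _ g hg
      exact absurd (hS' ▸ Finset.mem_univ g) hg
  | succ d ih =>
    intro x hx X0 Ts hX0 hTs hT
    set n := Fintype.card α with hn
    set a := p0 + 11 * d with ha
    have hpa : p0 ≤ a := Nat.le_add_right _ _
    -- pigeonhole for the scales
    obtain ⟨i, hi, hgap⟩ : ∃ i, i ≤ x ∧ ∀ τ ∈ Ts, ¬ Rich A H X0 τ.1 τ.2 (scale a n x i) ∨
        Rich A H X0 τ.1 τ.2 (scale a n x (i + 1)) := by
      by_contra hcon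
      push Not at hcon
      have h1 : ∀ i : Fin (x + 1), ∃ τ ∈ Ts, Rich A H X0 τ.1 τ.2 (scale a n x i) ∧
          ¬ Rich A H X0 τ.1 τ.2 (scale a n x (i + 1)) := fun i => hcon i (Nat.lt_succ_iff.1 i.2)
      choose τ hτ1 hτ2 hτ3 using h1
      have hne : ∀ i j : Fin (x + 1), i < j → τ i ≠ τ j := by
        intro i j hij heq
        apply hτ3 i
        rw [heq]
        exact rich_le (hτ2 j) (scale_mono a n x hij)
      have hinj : Function.Injective τ := by
        intro i j hij
        rcases lt_trichotomy i j with h | h | h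
        · exact absurd hij (hne i j h)
        · exact h
        · exact absurd hij.symm (hne j i h)
      have h2 : (Finset.univ.image τ).card ≤ Ts.card := by
        apply Finset.card_le_card
        intro z hz
        obtain ⟨i, -, rfl⟩ := Finset.mem_image.1 hz
        exact hτ1 i
      rw [Finset.card_image_of_injective _ hinj, Finset.card_univ, Fintype.card_fin] at h2
      omega
    set m := scale a n x i with hm
    have hxm : x ≤ m := le_scale a n x i
    have hnm : n ≤ m := hx.trans hxm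
    have hYex : ∀ τ : Finset α × (α → β), ∃ Y : Finset β, ¬ Rich A H X0 τ.1 τ.2 m →
        (Y.card ≤ m * n ∧ ∀ ψ, IsHom A H ψ → (∀ g ∈ τ.1, ψ g = τ.2 g) →
          ∃ g, g ∉ τ.1 ∧ (ψ g ∈ X0 ∨ ψ g ∈ Y)) := by
      intro τ
      by_cases h : Rich A H X0 τ.1 τ.2 m
      · exact ⟨∅, fun h' => absurd h h'⟩
      · obtain ⟨Y, hY⟩ := hit h
        exact ⟨Y, fun _ => hY⟩
    choose Y hY using hYex
    set Tp := Ts.filter fun τ => ¬ Rich A H X0 τ.1 τ.2 m with hTp
    have hTp_card : Tp.card ≤ m := (Finset.card_filter_le _ _).trans (hTs.trans hxm)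
    set X1 := X0 ∪ Tp.biUnion Y with hX1
    have hX1card : X1.card ≤ m + m * (m * n) := by
      refine (Finset.card_union_le _ _).trans (Nat.add_le_add (hX0.trans hxm) ?_)
      refine Finset.card_biUnion_le.trans ?_
      calc ∑ τ ∈ Tp, (Y τ).card ≤ ∑ _τ ∈ Tp, m * n :=
            Finset.sum_le_sum fun τ hτ => (hY τ (Finset.mem_filter.1 hτ).2).1
        _ = Tp.card * (m * n) := by rw [Finset.sum_const, smul_eq_mul]
        _ ≤ m * (m * n) := Nat.mul_le_mul_right _ hTp_card
    set Ts' := Tp.biUnion fun τ => (τ.1ᶜ ×ˢ X1).image fun z =>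
      ((insert z.1 τ.1, Function.update τ.2 z.1 z.2) : Finset α × (α → β)) with hTs'
    have hTs'card : Ts'.card ≤ m * (n * (m + m * (m * n))) := by
      refine Finset.card_biUnion_le.trans ?_
      calc ∑ τ ∈ Tp, ((τ.1ᶜ ×ˢ X1).image fun z =>
            ((insert z.1 τ.1, Function.update τ.2 z.1 z.2) : Finset α × (α → β))).card
          ≤ ∑ _τ ∈ Tp, n * (m + m * (m * n)) := by
            refine Finset.sum_le_sum fun τ _ => ?_
            refine Finset.card_image_le.trans ?_
            rw [Finset.card_product]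
            exact Nat.mul_le_mul (Finset.card_le_univ _) hX1card
        _ = Tp.card * (n * (m + m * (m * n))) := by rw [Finset.sum_const, smul_eq_mul]
        _ ≤ _ := Nat.mul_le_mul_right _ hTp_card
    have hb1 : m + m * (m * n) ≤ (m + 1) ^ 6 := by
      calc m + m * (m * n) ≤ m + m * (m * m) := by gcongr
        _ ≤ (m + 1) ^ 6 := by
          have : (m + 1) ^ 6 = (m + m * (m * m)) +
            (m ^ 6 + 6 * m ^ 5 + 15 * m ^ 4 + 19 * m ^ 3 + 15 * m ^ 2 + 5 * m + 1) := by ring
          omega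
    have hb2 : m * (n * (m + m * (m * n))) ≤ (m + 1) ^ 6 := by
      calc m * (n * (m + m * (m * n))) ≤ m * (m * (m + m * (m * m))) := by gcongr
        _ ≤ (m + 1) ^ 6 := by
          have : (m + 1) ^ 6 = m * (m * (m + m * (m * m))) +
            (m ^ 6 + 5 * m ^ 5 + 15 * m ^ 4 + 19 * m ^ 3 + 15 * m ^ 2 + 6 * m + 1) := by ring
          omega
    obtain ⟨X, hX1X, hXcard, hXcov⟩ := ih ((m + 1) ^ 6)
      (hnm.trans ((Nat.le_succ m).trans (Nat.le_self_pow (by norm_num) _))) X1 Ts'
      (hX1card.trans hb1) (hTs'card.trans hb2) (by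
        intro τ' hτ'
        obtain ⟨τ, hτ, hτ2⟩ := Finset.mem_biUnion.1 hτ'
        obtain ⟨⟨g, y⟩, hgy, rfl⟩ := Finset.mem_image.1 hτ2
        obtain ⟨hg, hy⟩ := Finset.mem_product.1 hgy
        obtain ⟨hS, haX⟩ := hT τ (Finset.mem_filter.1 hτ).1
        constructor
        · have h1 : (insert g τ.1)ᶜ = (τ.1)ᶜ.erase g := by
            ext x
            simp
          change ((insert g τ.1)ᶜ).card ≤ d
          rw [h1, Finset.card_erase_of_mem hg]
          omega
        · intro z hz
          change Function.update τ.2 g y z ∈ X1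
          by_cases hzg : z = g
          · subst hzg
            rw [Function.update_self]
            exact hy
          · rw [Function.update_of_ne hzg]
            exact Finset.mem_union_left _ (haX z (Finset.mem_of_mem_insert_of_ne hz hzg)))
    refine ⟨X, Finset.subset_union_left.trans hX1X, ?_, ?_⟩
    · refine hXcard.trans ((bnd3 hp hpa hx hi).trans (le_of_eq ?_))
      rw [ha]
      congr 1
    · intro τ hτ ψ hψ hψa
      by_cases hrich : Rich A H X0 τ.1 τ.2 m
      · rcases hgap τ hτ with h | h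
        · exact absurd hrich h
        · refine ⟨τ.1, subset_rfl, fun g hg => ?_, ?_⟩
          · rw [hψa g hg]
            exact hX1X (Finset.mem_union_left _ ((hT τ hτ).2 g hg))
          · refine rich_congr (rich_mono h ?_) fun g hg => (hψa g hg).symm
            calc 2 ^ n * (X.card + 1) ^ n + X.card = gr' n X.card := rfl
              _ ≤ gr' n (ack a ((m + 1) ^ 6)) := gr'_mono n hXcard
              _ = scale a n x (i + 1) := rfl
      · obtain ⟨g, hg, hgX⟩ := (hY τ hrich).2 ψ hψ hψa
        have hτp : τ ∈ Tp := Finset.mem_filter.2 ⟨hτ, hrich⟩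
        have hgX1 : ψ g ∈ X1 := by
          rcases hgX with h | h
          · exact Finset.mem_union_left _ h
          · exact Finset.mem_union_right _ (Finset.mem_biUnion.2 ⟨τ, hτp, h⟩)
        have hτ' : ((insert g τ.1, Function.update τ.2 g (ψ g)) : Finset α × (α → β)) ∈ Ts' := by
          refine Finset.mem_biUnion.2 ⟨τ, hτp, Finset.mem_image.2 ⟨(g, ψ g), ?_, rfl⟩⟩
          exact Finset.mem_product.2 ⟨Finset.mem_compl.2 hg, hgX1⟩
        obtain ⟨S', hS1, hS2, hS3⟩ := hXcov _ hτ' ψ hψ (by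
          intro z hz
          change ψ z = Function.update τ.2 g (ψ g) z
          by_cases hzg : z = g
          · subst hzg
            rw [Function.update_self]
          · rw [Function.update_of_ne hzg]
            exact hψa z (Finset.mem_of_mem_insert_of_ne hz hzg))
        exact ⟨S', (Finset.subset_insert _ _).trans hS1, hS2, hS3⟩

end eff

end Pool.Agent.BHD
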